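import Pool.Agent.T9h42.NF.SivE

/-!
# PIECE `SieveBdOfK`
-/

set_option autoImplicit false
set_option maxHeartbeats 1000000

namespace Pool.Agent.T9h42.NF

open Finset NumberField Pool.Agent.T9h11.NF
open Pool.Agent.T9h57.QD (ind)
open Pool.Agent.T9h42.QD (ind_nonneg ind_le_one ind_true ind_false)

theorem sieveBdOfK (K : Type) [Field K] [NumberField K] : SieveBdOfK K := by
  classical
  intro hLat hLS hRT hId hUF _hCh hDP hDX hTX n k e₀ ρ₁ ρ₂ Ψ ε hn he hρ₁ hρ₂ hΨ hε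
  obtain ⟨CL, hCL, hL⟩ := hLS
  obtain ⟨CI, hCI, hI1, hI2⟩ := hId
  obtain ⟨CU, hCU⟩ := hUF ρ₁ hρ₁
  obtain ⟨-, -, -, -, hLat3, -⟩ := hLat
  obtain ⟨c₁, hc₁, hc₁b⟩ := slot_bound hρ₁
  obtain ⟨c₂, hc₂, hc₂b⟩ := slot_bound hρ₂
  obtain ⟨n', rfl⟩ : ∃ n', n = n' + 1 := ⟨n - 1, by omega⟩
  set d := Module.finrank ℚ K with hd
  have hd1 : 1 ≤ d := Module.finrank_pos
  set m := d * (e₀ * k * k + (n' + 1) * (n' + 1)) with hm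
  set a : ℝ := 2 * 8 ^ (n' + k) with ha
  have ha0 : 0 < a := by rw [ha]; positivity
  set w := 2 ^ (6 * (n' + k)) + 2 ^ (8 * m) + (⌈(3 * a * CI / ε) ^ 2⌉₊ + 2) with hw
  have hA : ∀ a b c : ℕ, a ≤ a + b + (c + 2) ∧ b ≤ a + b + (c + 2) ∧ 2 ≤ a + b + (c + 2) ∧
      c ≤ a + b + (c + 2) := by
    intro a b c
    omega
  obtain ⟨hw1, hw2, hw3, hw5⟩ :=
    hA (2 ^ (6 * (n' + k))) (2 ^ (8 * m)) ⌈(3 * a * CI / ε) ^ 2⌉₊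
  rw [← hw] at hw1 hw2 hw3 hw5
  have hw4 : a * (CI / (w : ℝ) ^ (1 / 2 : ℝ)) ≤ ε / 3 := by
    rw [← Real.sqrt_eq_rpow]
    have hs : 3 * a * CI / ε ≤ Real.sqrt w := by
      apply Real.le_sqrt_of_sq_le
      refine (Nat.le_ceil _).trans ?_
      exact_mod_cast hw5
    have hs0 : 0 < Real.sqrt w := by
      apply Real.sqrt_pos.2
      exact_mod_cast (by omega : 0 < w)
    rw [div_le_iff₀ hε] at hs
    rw [← mul_div_assoc, div_le_iff₀ hs0]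
    linarith
  refine ⟨w, fun M q₀ H hM hwM hq₀ hqM hH => ?_⟩
  obtain ⟨CX, DX, hCX, hDX0, hDX1⟩ := hDX ρ₁ M hρ₁ hM
  obtain ⟨CY, DY, hCY, hDY0, hDY1⟩ := hDX ρ₂ M hρ₂ hM
  obtain ⟨CT, DT, hCT, hDT0, hDT1⟩ := hTX ρ₁ Ψ M q₀ hρ₁ hΨ hM hq₀ hqM
  set Uc : ℕ := ⌈CU⌉₊ with hUc
  set big : ℝ := 16 * (2 * ((2 * ((c₂ * H) ^ k) ^ d) ^ k * (2 * (c₁ ^ (n' + 1)) ^ d) ^ (n' + 1))) *
      (CY ^ k * CL * (CX * (Uc : ℝ)) ^ (n' + 1) *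
        ((c₁ ^ (n' + 1)) ^ d + 4 * ((c₂ * H) ^ k) ^ d)) ^ 8 / (ε / 3) ^ 8 with hbig
  set L : ℕ := 1 + ⌈CX⌉₊ + ⌈CY⌉₊ + ⌈big⌉₊ + ⌈a * CT ^ 2 * CI / (ε / 3)⌉₊ with hLdef
  refine ⟨((L ^ 2) ^ 2 : ℕ) + DX + DY + DT + 1, ?_, fun D hD X Y hX hY κ z => ?_⟩
  · have : (0 : ℝ) ≤ ((L ^ 2) ^ 2 : ℕ) := Nat.cast_nonneg _
    linarith
  have hL0 : (0 : ℝ) ≤ ((L ^ 2) ^ 2 : ℕ) := Nat.cast_nonneg _
  have hD1 : 1 ≤ D := by linarith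
  have hD0 : 0 < D := by linarith
  set Dn : ℕ := ⌊D⌋₊ with hDn
  set D₁ := Nat.sqrt (Nat.sqrt Dn) with hD₁
  have hDnD : (Dn : ℝ) ≤ D := Nat.floor_le hD0.le
  have hDn1 : 1 ≤ Dn := Nat.le_floor (by exact_mod_cast hD1)
  have hLD : L ≤ D₁ := by
    rw [hD₁, Nat.le_sqrt', Nat.le_sqrt']
    apply Nat.le_floor
    linarith
  have hD₁4 : D₁ ^ 4 ≤ Dn := by
    have h1 : D₁ ^ 2 ≤ Nat.sqrt Dn := Nat.sqrt_le' _
    calc D₁ ^ 4 = (D₁ ^ 2) ^ 2 := by ring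
      _ ≤ (Nat.sqrt Dn) ^ 2 := Nat.pow_le_pow_left h1 2
      _ ≤ Dn := Nat.sqrt_le' _
  have hD₁1 : 1 ≤ D₁ := by
    have : 1 ≤ L := by rw [hLdef]; omega
    omega
  have hD16 : Dn ≤ 16 * D₁ ^ 4 := by
    have h1 : Nat.sqrt Dn < (D₁ + 1) ^ 2 := Nat.lt_succ_sqrt' _
    have h2 : Dn < (Nat.sqrt Dn + 1) ^ 2 := Nat.lt_succ_sqrt' _
    calc Dn ≤ (Nat.sqrt Dn + 1) ^ 2 := h2.le
      _ ≤ ((D₁ + 1) ^ 2) ^ 2 := Nat.pow_le_pow_left h1 2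
      _ ≤ ((2 * D₁) ^ 2) ^ 2 := by gcongr; omega
      _ = 16 * D₁ ^ 4 := by ring
  have hD₁r : (1 : ℝ) ≤ D₁ := by exact_mod_cast hD₁1
  have hD₁4r : (D₁ : ℝ) ^ 4 ≤ D := by
    refine le_trans ?_ hDnD
    exact_mod_cast hD₁4
  have hD32 : D ≤ 32 * (D₁ : ℝ) ^ 4 := by
    have h1 : D < Dn + 1 := Nat.lt_floor_add_one D
    have h2 : (Dn : ℝ) ≤ 16 * (D₁ : ℝ) ^ 4 := by exact_mod_cast hD16
    have h3 : (1 : ℝ) ≤ Dn := by exact_mod_cast hDn1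
    linarith
  have hD₁D : (D₁ : ℝ) ≤ D := by
    calc (D₁ : ℝ) = (D₁ : ℝ) ^ 1 := (pow_one _).symm
      _ ≤ (D₁ : ℝ) ^ 4 := pow_le_pow_right₀ hD₁r (by norm_num)
      _ ≤ D := hD₁4r
  have hLr : (L : ℝ) ≤ D₁ := by exact_mod_cast hLD
  have hceil : ∀ (x : ℝ), ⌈x⌉₊ ≤ L → x ≤ D₁ := fun x hx =>
    (Nat.le_ceil x).trans (le_trans (by exact_mod_cast hx) hLr)
  have hCXD : CX ≤ D₁ := hceil CX (by rw [hLdef]; omega)
  have hCYD : CY ≤ D₁ := hceil CY (by rw [hLdef]; omega)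
  -- the slots
  set D' : ℝ := H * D ^ e₀ with hD'
  have hDD' : D ≤ D' := by
    have h1 : D ≤ D ^ e₀ := by
      calc D = D ^ 1 := (pow_one D).symm
        _ ≤ D ^ e₀ := pow_le_pow_right₀ hD1 he
    calc D ≤ D ^ e₀ := h1
      _ = 1 * D ^ e₀ := (one_mul _).symm
      _ ≤ H * D ^ e₀ := mul_le_mul_of_nonneg_right hH (by positivity)
  have hD'0 : 0 < D' := by linarith
  have hXm : ∀ x ∈ X, x ≠ 0 ∧ cop x M := fun x hx => slot_ne hρ₁ hX hx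
  have hYm : ∀ x ∈ Y, x ≠ 0 ∧ cop x M := fun x hx => slot_ne hρ₂ hY hx
  obtain ⟨-, -, -, hXp, hXg⟩ := hDX1 D (by linarith) X hX
  obtain ⟨-, -, -, -, hYg⟩ := hDY1 D' (by linarith) Y hY
  have hT : TwB X (pr (wl ρ₁ D) X) Ψ M q₀ CT D := hDT1 D (by linarith) X hX
  have hp0 : ∀ x, 0 ≤ pr (wl ρ₁ D) X x := pr_nonneg' (wl_nonneg' hρ₁ D) X
  have hq0 : ∀ x, 0 ≤ pr (wl ρ₂ D') Y x := pr_nonneg' (wl_nonneg' hρ₂ D') Y
  have hp : Wts X (pr (wl ρ₁ D) X) := pr_wts (wl_nonneg' hρ₁ D) X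
  have hq : Wts Y (pr (wl ρ₂ D') Y) := pr_wts (wl_nonneg' hρ₂ D') Y
  have hnorm : ∀ (x : 𝓞 K) (R : ℝ), x ≠ 0 → 0 ≤ R → ‖E (x : K)‖ ≤ R →
      (Ideal.absNorm (Ideal.span {x}) : ℝ) ≤ R ^ d := by
    intro x R hx hR hxR
    obtain ⟨h1, h2⟩ := hLat3 (Ideal.span {x}) x (Ideal.mem_span_singleton_self x) hx
    exact h1.trans (h2.trans (pow_le_pow_left₀ (norm_nonneg _) hxR d))
  set N : ℕ := ⌈((c₁ * D) ^ (n' + 1)) ^ d⌉₊ with hN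
  set Q : ℕ := ⌈((c₂ * D') ^ k) ^ d⌉₊ with hQ
  have hc1D : 1 ≤ c₁ * D := one_le_mul_of_one_le_of_one_le hc₁ hD1
  have hc2D : 1 ≤ c₂ * D' := one_le_mul_of_one_le_of_one_le hc₂ (hD1.trans hDD')
  have hceil2 : ∀ x : ℝ, 1 ≤ x → ((⌈x⌉₊ : ℕ) : ℝ) ≤ 2 * x := by
    intro x hx
    have := Nat.ceil_lt_add_one (show 0 ≤ x by linarith)
    linarith
  have hN2 : (N : ℝ) ≤ 2 * ((c₁ * D) ^ (n' + 1)) ^ d :=
    hceil2 _ (one_le_pow₀ (one_le_pow₀ hc1D))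
  have hQ2 : (Q : ℝ) ≤ 2 * ((c₂ * D') ^ k) ^ d :=
    hceil2 _ (one_le_pow₀ (one_le_pow₀ hc2D))
  have hN1 : 1 ≤ N := Nat.one_le_iff_ne_zero.2 (by
    rw [hN]
    have : 0 < ((c₁ * D) ^ (n' + 1)) ^ d := by positivity
    exact (Nat.ceil_pos.2 this).ne')
  have hQ1 : 1 ≤ Q := Nat.one_le_iff_ne_zero.2 (by
    rw [hQ]
    have : 0 < ((c₂ * D') ^ k) ^ d := by positivity
    exact (Nat.ceil_pos.2 this).ne')
  have hYQ : ∀ y ∈ Fintype.piFinset (fun _ : Fin k => Y), ∏ i, y i ≠ 0 ∧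
      Ideal.absNorm (Ideal.span {∏ i, y i}) ≤ Q := by
    intro y hy
    have h1 := (cop_prod hYm y hy).1
    refine ⟨h1, ?_⟩
    have h2 := hnorm _ _ h1 (by positivity) (hc₂b M D' Y hD'0 hY k y hy)
    have h3 := h2.trans (Nat.le_ceil _)
    exact_mod_cast h3
  have hXN : ∀ x ∈ Fintype.piFinset (fun _ : Fin (n' + 1) => X),
      Ideal.absNorm (Ideal.span {∏ i, x i}) ≤ N := by
    intro x hx
    have h1 := (cop_prod hXm x hx).1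
    have h2 := hnorm _ _ h1 (by positivity) (hc₁b M D X hD0 hX (n' + 1) x hx)
    have h3 := h2.trans (Nat.le_ceil _)
    exact_mod_cast h3
  have hmain := exk_swap (n' + 1) k X Y (pr (wl ρ₁ D) X) (pr (wl ρ₂ D') Y) (gK Ψ z q₀ κ) Q hYQ
  change exk k Y (pr (wl ρ₂ D') Y) (fun y => nm (Ideal.span {∏ i, y i}) *
      exk (n' + 1) X (pr (wl ρ₁ D) X) (fun x => exk (n' + 1) X (pr (wl ρ₁ D) X) (fun x' =>
        gK Ψ z q₀ κ (∏ i, x i) * gK Ψ z q₀ κ (∏ i, x' i) *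
          ind (∏ i, x i - ∏ i, x' i ∈ Ideal.span {∏ i, y i})))) ≤
      (exk (n' + 1) X (pr (wl ρ₁ D) X) (fun x => gK Ψ z q₀ κ (∏ i, x i))) ^ 2 + ε
  rw [hmain, ← Phk_top]
  have hsplit := sum_splitK (fun J => exk k Y (pr (wl ρ₂ D') Y) (fun y => ind (∏ i, y i ∈ J)) *
      Phk (n' + 1) X (pr (wl ρ₁ D) X) (gK Ψ z q₀ κ) J)
    (fun J => mul_nonneg (prob_nonneg hq J) (Phk_nonneg _ _ _ _ _)) w D₁ Q (fun J h1 h2 => by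
      by_cases hJ0 : J = ⊥
      · subst hJ0
        have h3 : exk k Y (pr (wl ρ₂ D') Y) (fun y => ind (∏ i, y i ∈ (⊥ : Ideal (𝓞 K)))) = 0 := by
          rw [exk_eq]
          refine Finset.sum_eq_zero fun y hy => ?_
          rw [ind_false, mul_zero]
          rw [Ideal.mem_bot]
          exact (cop_prod hYm y hy).1
        simp only [h3, zero_mul]
      · have hnc : ¬ IsCoprime J M := fun hc =>
          absurd (rough_gtK w M hwM J hJ0 h1 hc) (by omega)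
        simp only [prob_zero hYm J hnc, zero_mul])
  refine hsplit.trans ?_
  have hone : exk k Y (pr (wl ρ₂ D') Y) (fun y => ind (∏ i, y i ∈ (⊤ : Ideal (𝓞 K)))) *
      Phk (n' + 1) X (pr (wl ρ₁ D) X) (gK Ψ z q₀ κ) ⊤ ≤
      Phk (n' + 1) X (pr (wl ρ₁ D) X) (gK Ψ z q₀ κ) ⊤ :=
    mul_le_of_le_one_left (Phk_nonneg _ _ _ _ _) (prob_le_one hq _)
  -- small conductors
  have hgen : ∀ (C : ℝ) (g : Ideal (𝓞 K)), 0 ≤ C → C ≤ D₁ → g ≠ ⊥ → Ideal.absNorm g ≤ D₁ →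
      C * nm g ^ 2 ≤ D := by
    intro C g hC0 hC hg hgD
    have h1 : nm g ≤ D₁ := by unfold nm; exact_mod_cast hgD
    have h2 : 1 ≤ nm g := nm_pos hg
    calc C * nm g ^ 2 ≤ D₁ * (D₁ : ℝ) ^ 2 := by gcongr
      _ = (D₁ : ℝ) ^ 3 := by ring
      _ ≤ (D₁ : ℝ) ^ 4 := pow_le_pow_right₀ hD₁r (by norm_num)
      _ ≤ D := hD₁4r
  have hsmall := small_sum (f := fun J => exk k Y (pr (wl ρ₂ D') Y) (fun y => ind (∏ i, y i ∈ J)) *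
      Phk (n' + 1) X (pr (wl ρ₁ D) X) (gK Ψ z q₀ κ) J) hCI hI1 hI2 w D₁ (by omega) hD₁1
    a (a * CT ^ 2 * (D₁ : ℝ) ^ 3 / D ^ 2) ha0.le (by positivity) (fun J hJ0 hJ2 =>
      small_part hp hq hp0 hq0 hΨ hXm hYm hM hq₀ hqM hRT hDP (by linarith) hD0 hT n' k z κ w hw3
        hwM hw1 D₁
        (fun g hg hgD => (hXg g hg).2 (hgen CX g (by linarith) hCXD hg hgD))
        (fun g hg hgD => (hYg g hg).2 ((hgen CY g (by linarith) hCYD hg hgD).trans hDD'))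
        J hJ0 hJ2)
  have hsmall2 : CI * D₁ * (a * CT ^ 2 * (D₁ : ℝ) ^ 3 / D ^ 2) ≤ ε / 3 := by
    have h1 : CI * D₁ * (a * CT ^ 2 * (D₁ : ℝ) ^ 3 / D ^ 2) =
        (a * CT ^ 2 * CI) * (D₁ : ℝ) ^ 4 / D ^ 2 := by ring
    rw [h1, div_le_iff₀ (by positivity)]
    have h2 : a * CT ^ 2 * CI / (ε / 3) ≤ D₁ := hceil _ (by rw [hLdef]; omega)
    rw [div_le_iff₀ (by positivity)] at h2
    calc (a * CT ^ 2 * CI) * (D₁ : ℝ) ^ 4 ≤ ((D₁ : ℝ) * (ε / 3)) * D := by gcongr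
      _ ≤ (D * (ε / 3)) * D := by gcongr
      _ = ε / 3 * D ^ 2 := by ring
  -- large conductors
  have hUS : ∀ (I : Ideal (𝓞 K)) (S : Finset (𝓞 K)), S ⊆ X → (∀ x ∈ S, Ideal.span {x} = I) →
      S.card ≤ Uc := by
    intro I S hSX hSI
    have h1 := hCU D I S hD0 (fun x hx => ⟨((hX x).1 (hSX hx)).2, hSI x hx⟩)
    have h2 := h1.trans (Nat.le_ceil CU)
    exact_mod_cast h2
  have hlarge := large_part (g := gK Ψ z q₀ κ) hp hq0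
    (fun f => ⟨gK_nonneg hΨ z q₀ κ f, gK_le_one hΨ z q₀ κ f⟩) hXm hYm hRT hDP CL hCL hL
    (n' + 1) k w hw3 hwM D₁ Q N hD₁1 ((c₁ * D) ^ (n' + 1)) (one_le_pow₀ hc1D)
    (hc₁b M D X hD0 hX (n' + 1)) hXN (CX / D ^ d) (by positivity) hXp Uc hUS CY (by linarith)
    (fun g hg => (hYg g hg).1)
  have hbigD : big ≤ D₁ := hceil big (by rw [hLdef]; omega)
  have hlarge2 := large_numbers d k (n' + 1) e₀ m hd1 hn hm w hw2 c₁ (c₂ * H) D CX CY CL Uc (ε / 3)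
    hc₁ (one_le_mul_of_one_le_of_one_le hc₂ hH) (by linarith) (by linarith) (by linarith)
    (Nat.cast_nonneg _) (by positivity) Q N D₁ hQ1 hN1
    (by rw [mul_assoc]; exact hQ2) hN2 hD32 hD₁1 hD₁D hbigD
  have h3 := hlarge.trans hlarge2
  linarith

end Pool.Agent.T9h42.NF
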