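import Pool.Agent.T9h57.NF.Ex
import Pool.Agent.T9h42.QD.SieveB

/-!
# The sieve bound over `𝓞 K`, part A: additive characters and their conductors
-/

set_option autoImplicit false

namespace Pool.Agent.T9h42.NF

open Finset NumberField

variable {K : Type} [Field K] [NumberField K]

/-- ideals of norm `≤ Q`, not zero. -/
noncomputable def IQ (K : Type) [Field K] [NumberField K] (Q : ℕ) : Finset (Ideal (𝓞 K)) := by
  classical
  exact ((Ideal.finite_setOfPred_absNorm_le (S := 𝓞 K) Q).toFinset).filter (fun I => I ≠ ⊥)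

theorem mem_IQ {Q : ℕ} {I : Ideal (𝓞 K)} : I ∈ IQ K Q ↔ Ideal.absNorm I ≤ Q ∧ I ≠ ⊥ := by
  classical
  unfold IQ
  rw [Finset.mem_filter, Set.Finite.mem_toFinset]
  rfl

noncomputable instance instFinQuot (I : Ideal (𝓞 K)) [NeZero I] : Finite (𝓞 K ⧸ I) :=
  Ideal.finiteQuotientOfFreeOfNeBot I (NeZero.ne I)

/-- pull back of a character of `𝓞 K / I`. -/
noncomputable def pull (I : Ideal (𝓞 K)) (ψ : AddChar (𝓞 K ⧸ I) ℂ) : AddChar (𝓞 K) ℂ :=
  ψ.compAddMonoidHom (Ideal.Quotient.mk I).toAddMonoidHom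

theorem pull_apply (I : Ideal (𝓞 K)) (ψ : AddChar (𝓞 K ⧸ I) ℂ) (x : 𝓞 K) :
    pull I ψ x = ψ (Ideal.Quotient.mk I x) := rfl

theorem pull_inj (I : Ideal (𝓞 K)) : Function.Injective (pull I) :=
  AddChar.compAddMonoidHom_injective_left _ Ideal.Quotient.mk_surjective

/-- the conductor of an additive character. -/
def cnd (χ : AddChar (𝓞 K) ℂ) : Ideal (𝓞 K) where
  carrier := {x | ∀ y, χ (x * y) = 1}
  add_mem' {a b} ha hb := by
    intro y
    rw [add_mul, AddChar.map_add_eq_mul, ha y, hb y, one_mul]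
  zero_mem' := by
    intro y
    rw [zero_mul, AddChar.map_zero_eq_one]
  smul_mem' c x hx := by
    intro y
    rw [smul_eq_mul, mul_assoc, mul_left_comm]
    exact hx _

theorem mem_cnd {χ : AddChar (𝓞 K) ℂ} {x : 𝓞 K} : x ∈ cnd χ ↔ ∀ y, χ (x * y) = 1 := Iff.rfl

theorem triv_of_cnd {χ : AddChar (𝓞 K) ℂ} {x : 𝓞 K} (h : x ∈ cnd χ) : χ x = 1 := by
  have := h 1
  rwa [mul_one] at this

theorem le_cnd_iff {χ : AddChar (𝓞 K) ℂ} {I : Ideal (𝓞 K)} :
    I ≤ cnd χ ↔ ∀ x ∈ I, χ x = 1 := by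
  constructor
  · intro h x hx
    exact triv_of_cnd (h hx)
  · intro h x hx y
    exact h _ (I.mul_mem_right y hx)

theorem exists_pull {χ : AddChar (𝓞 K) ℂ} {I : Ideal (𝓞 K)} (h : ∀ x ∈ I, χ x = 1) :
    ∃ ψ : AddChar (𝓞 K ⧸ I) ℂ, pull I ψ = χ := by
  have h0 : ∀ x y : 𝓞 K, x - y ∈ I → χ x = χ y := by
    intro x y hxy
    have h1 : χ x = χ (x - y) * χ y := by
      rw [← AddChar.map_add_eq_mul, sub_add_cancel]
    rw [h1, h _ hxy, one_mul]
  let f : 𝓞 K ⧸ I → ℂ := fun q => χ (Quotient.out q)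
  have hf : ∀ x : 𝓞 K, f (Ideal.Quotient.mk I x) = χ x := by
    intro x
    apply h0
    rw [← Ideal.Quotient.eq]
    exact Quotient.out_eq _
  refine ⟨⟨f, ?_, ?_⟩, ?_⟩
  · have := hf 0
    rw [map_zero, AddChar.map_zero_eq_one] at this
    exact this
  · intro a b
    obtain ⟨x, rfl⟩ := Ideal.Quotient.mk_surjective a
    obtain ⟨y, rfl⟩ := Ideal.Quotient.mk_surjective b
    rw [← map_add, hf, hf, hf, AddChar.map_add_eq_mul]
  · ext x
    exact hf x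

/-- characters of `𝓞 K` of conductor `I`. -/
noncomputable def Prim (I : Ideal (𝓞 K)) : Finset (AddChar (𝓞 K) ℂ) := by
  classical
  exact if h : I = ⊥ then ∅ else
    haveI : NeZero I := ⟨h⟩
    haveI : Fintype (AddChar (𝓞 K ⧸ I) ℂ) := Fintype.ofFinite _
    ((univ : Finset (AddChar (𝓞 K ⧸ I) ℂ)).image (pull I)).filter (fun χ => cnd χ = I)

theorem mem_Prim {I : Ideal (𝓞 K)} (hI : I ≠ ⊥) {χ : AddChar (𝓞 K) ℂ} :
    χ ∈ Prim I ↔ cnd χ = I := by
  classical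
  unfold Prim
  rw [dif_neg hI]
  simp only [Finset.mem_filter, Finset.mem_image, Finset.mem_univ, true_and]
  constructor
  · exact fun h => h.2
  · intro h
    refine ⟨?_, h⟩
    apply exists_pull
    rw [← le_cnd_iff, h]

theorem card_Prim {I : Ideal (𝓞 K)} (hI : I ≠ ⊥) : (Prim I).card ≤ Ideal.absNorm I := by
  classical
  haveI : NeZero I := ⟨hI⟩
  haveI : Fintype (𝓞 K ⧸ I) := Fintype.ofFinite _
  unfold Prim
  rw [dif_neg hI]
  refine (Finset.card_filter_le _ _).trans (Finset.card_image_le.trans ?_)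
  rw [Finset.card_univ]
  have h1 : Fintype.card (AddChar (𝓞 K ⧸ I) ℂ) = Fintype.card (𝓞 K ⧸ I) := AddChar.card_eq
  have h2 : Ideal.absNorm I = Fintype.card (𝓞 K ⧸ I) := by
    rw [Ideal.absNorm_apply, Submodule.cardQuot_apply, Nat.card_eq_fintype_card]
  rw [h2, ← h1]

theorem cnd_ne_bot {I : Ideal (𝓞 K)} (hI : I ≠ ⊥) {χ : AddChar (𝓞 K) ℂ} (h : ∀ x ∈ I, χ x = 1) :
    cnd χ ≠ ⊥ := by
  intro h0
  apply hI
  rw [eq_bot_iff, ← h0]
  exact le_cnd_iff.2 h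

theorem norm_char {I : Ideal (𝓞 K)} (hI : I ≠ ⊥) {χ : AddChar (𝓞 K) ℂ} (h : ∀ x ∈ I, χ x = 1)
    (x : 𝓞 K) : ‖χ x‖ = 1 := by
  haveI : NeZero I := ⟨hI⟩
  obtain ⟨ψ, rfl⟩ := exists_pull h
  rw [pull_apply]
  exact AddChar.norm_apply ψ _

/-- Parseval. -/
theorem parsevalN {ι : Type} (s : Finset ι) (c : ι → ℝ) (F : ι → 𝓞 K) (I : Ideal (𝓞 K))
    [NeZero I] [Fintype (AddChar (𝓞 K ⧸ I) ℂ)] :
    ∑ ψ : AddChar (𝓞 K ⧸ I) ℂ, ‖∑ i ∈ s, (c i : ℂ) * pull I ψ (F i)‖ ^ 2 =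
      (Ideal.absNorm I : ℝ) * ∑ i ∈ s, ∑ j ∈ s, c i * c j *
        (Pool.Agent.T9h57.QD.ind (F i - F j ∈ I)) := by
  classical
  haveI : Fintype (𝓞 K ⧸ I) := Fintype.ofFinite _
  have horth : ∀ a : 𝓞 K, ∑ ψ : AddChar (𝓞 K ⧸ I) ℂ, ψ (Ideal.Quotient.mk I a) =
      (Ideal.absNorm I : ℂ) * (Pool.Agent.T9h57.QD.ind (a ∈ I) : ℝ) := by
    intro a
    have h1 := AddChar.sum_apply_eq_ite (Ideal.Quotient.mk I a)
    have h0 : ∑ ψ : AddChar (𝓞 K ⧸ I) ℂ, ψ (Ideal.Quotient.mk I a) =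
        if Ideal.Quotient.mk I a = 0 then (Fintype.card (𝓞 K ⧸ I) : ℂ) else 0 := by
      rw [← h1]
      exact Finset.sum_congr (by ext; simp) fun _ _ => rfl
    rw [h0]
    have h2 : Ideal.absNorm I = Fintype.card (𝓞 K ⧸ I) := by
      rw [Ideal.absNorm_apply, Submodule.cardQuot_apply, Nat.card_eq_fintype_card]
    unfold Pool.Agent.T9h57.QD.ind
    by_cases ha : a ∈ I
    · rw [if_pos (Ideal.Quotient.eq_zero_iff_mem.2 ha), if_pos ha, h2]
      simp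
    · rw [if_neg (fun h => ha (Ideal.Quotient.eq_zero_iff_mem.1 h)), if_neg ha]
      simp
  have key : ((∑ ψ : AddChar (𝓞 K ⧸ I) ℂ, ‖∑ i ∈ s, (c i : ℂ) * pull I ψ (F i)‖ ^ 2 : ℝ) : ℂ) =
      (((Ideal.absNorm I : ℝ) * ∑ i ∈ s, ∑ j ∈ s, c i * c j *
        (Pool.Agent.T9h57.QD.ind (F i - F j ∈ I)) : ℝ) : ℂ) := by
    push_cast
    calc ∑ ψ : AddChar (𝓞 K ⧸ I) ℂ, ((‖∑ i ∈ s, (c i : ℂ) * pull I ψ (F i)‖ : ℝ) : ℂ) ^ 2
        = ∑ ψ : AddChar (𝓞 K ⧸ I) ℂ, ∑ i ∈ s, ∑ j ∈ s, ((c i : ℂ) * (c j : ℂ)) *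
            ψ (Ideal.Quotient.mk I (F i - F j)) := by
          refine Finset.sum_congr rfl fun ψ _ => ?_
          rw [← Complex.mul_conj', map_sum, Finset.sum_mul_sum]
          refine Finset.sum_congr rfl fun i _ => Finset.sum_congr rfl fun j _ => ?_
          rw [map_mul, Complex.conj_ofReal, pull_apply, pull_apply, map_sub,
            AddChar.map_sub_eq_div]
          have h3 : (starRingEnd ℂ) (ψ (Ideal.Quotient.mk I (F j))) =
              (ψ (Ideal.Quotient.mk I (F j)))⁻¹ := by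
            have h4 : ‖ψ (Ideal.Quotient.mk I (F j))‖ = 1 := AddChar.norm_apply ψ _
            rw [Complex.inv_def, Complex.normSq_eq_norm_sq, h4]
            simp
          rw [h3, div_eq_mul_inv]
          ring
      _ = ∑ i ∈ s, ∑ j ∈ s, ((c i : ℂ) * (c j : ℂ)) *
            ∑ ψ : AddChar (𝓞 K ⧸ I) ℂ, ψ (Ideal.Quotient.mk I (F i - F j)) := by
          rw [Finset.sum_comm]
          refine Finset.sum_congr rfl fun i _ => ?_
          rw [Finset.sum_comm]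
          refine Finset.sum_congr rfl fun j _ => ?_
          rw [Finset.mul_sum]
      _ = _ := by
          rw [Finset.mul_sum]
          refine Finset.sum_congr rfl fun i _ => ?_
          rw [Finset.mul_sum]
          refine Finset.sum_congr rfl fun j _ => ?_
          rw [horth]
          ring
  exact_mod_cast key

/-- decomposition of the characters of `𝓞 K / I` by their conductors. -/
theorem sum_cond (G : AddChar (𝓞 K) ℂ → ℝ) (I : Ideal (𝓞 K)) [NeZero I]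
    [Fintype (AddChar (𝓞 K ⧸ I) ℂ)] (Q : ℕ) (hQ : Ideal.absNorm I ≤ Q) :
    ∑ ψ : AddChar (𝓞 K ⧸ I) ℂ, G (pull I ψ) =
      ∑ J ∈ IQ K Q, Pool.Agent.T9h57.QD.ind (I ≤ J) * ∑ χ ∈ Prim J, G χ := by
  classical
  have hI : I ≠ ⊥ := NeZero.ne I
  have h1 : ∀ ψ ∈ (univ : Finset (AddChar (𝓞 K ⧸ I) ℂ)),
      cnd (pull I ψ) ∈ (IQ K Q).filter (fun J => I ≤ J) := by
    intro ψ _
    have h2 : I ≤ cnd (pull I ψ) := by
      rw [le_cnd_iff]
      intro x hx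
      rw [pull_apply, Ideal.Quotient.eq_zero_iff_mem.2 hx, AddChar.map_zero_eq_one]
    rw [Finset.mem_filter, mem_IQ]
    refine ⟨⟨?_, ?_⟩, h2⟩
    · exact (Nat.le_of_dvd (Nat.pos_of_ne_zero (by
        rw [Ne, Ideal.absNorm_eq_zero_iff]
        exact hI)) (Ideal.absNorm_dvd_absNorm_of_le h2)).trans hQ
    · intro h3
      rw [h3] at h2
      exact hI (le_bot_iff.1 h2)
  rw [← Finset.sum_fiberwise_of_maps_to h1, Finset.sum_filter]
  refine Finset.sum_congr rfl fun J hJ => ?_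
  rw [mem_IQ] at hJ
  unfold Pool.Agent.T9h57.QD.ind
  by_cases hIJ : I ≤ J
  · rw [if_pos hIJ, if_pos hIJ, one_mul]
    refine Finset.sum_bij (fun ψ _ => pull I ψ) ?_ ?_ ?_ ?_
    · intro ψ hψ
      rw [Finset.mem_filter] at hψ
      rw [mem_Prim hJ.2]
      exact hψ.2
    · intro ψ _ ψ' _ h
      exact pull_inj I h
    · intro χ hχ
      rw [mem_Prim hJ.2] at hχ
      obtain ⟨ψ, rfl⟩ := exists_pull (χ := χ) (I := I) (le_cnd_iff.1 (hχ ▸ hIJ))
      refine ⟨ψ, ?_, rfl⟩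
      rw [Finset.mem_filter]
      exact ⟨Finset.mem_univ _, hχ⟩
    · intro ψ _
      rfl
  · rw [if_neg hIJ, if_neg hIJ, zero_mul]

end Pool.Agent.T9h42.NF
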