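import Pool.Agent.T9h42.NF.SivA
import Pool.Agent.T9h11.NF.Spec2

/-!
# The sieve bound over `𝓞 K`, part B: expectations and the decomposition over the conductors
-/

set_option autoImplicit false

namespace Pool.Agent.T9h42.NF

open Finset NumberField Pool.Agent.T9h11.NF
open Pool.Agent.T9h57.QD (ind)
open Pool.Agent.T9h42.QD (ind_nonneg ind_le_one ind_true ind_false)

variable {K : Type} [Field K] [NumberField K]

/-- weights of total mass at most one. -/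
def Wts (X : Finset (𝓞 K)) (p : 𝓞 K → ℝ) : Prop := (∀ x ∈ X, 0 ≤ p x) ∧ ∑ x ∈ X, p x ≤ 1

/-- product weight. -/
noncomputable def Wk (n : ℕ) (p : 𝓞 K → ℝ) (x : Fin n → 𝓞 K) : ℝ := ∏ i, p (x i)

theorem Wk_nonneg {n : ℕ} {X : Finset (𝓞 K)} {p : 𝓞 K → ℝ} (h : Wts X p) {x : Fin n → 𝓞 K}
    (hx : x ∈ Fintype.piFinset (fun _ : Fin n => X)) : 0 ≤ Wk n p x := by
  rw [Fintype.mem_piFinset] at hx
  exact Finset.prod_nonneg fun i _ => h.1 _ (hx i)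

theorem sum_Wk_le {n : ℕ} {X : Finset (𝓞 K)} {p : 𝓞 K → ℝ} (h : Wts X p) :
    ∑ x ∈ Fintype.piFinset (fun _ : Fin n => X), Wk n p x ≤ 1 := by
  have h1 : ∑ x ∈ Fintype.piFinset (fun _ : Fin n => X), Wk n p x = ∏ _i : Fin n, ∑ x ∈ X, p x := by
    rw [Finset.prod_univ_sum]
    rfl
  rw [h1]
  exact Finset.prod_le_one (fun _ _ => Finset.sum_nonneg fun x hx => h.1 x hx) fun _ _ => h.2

theorem exk_eq (n : ℕ) (X : Finset (𝓞 K)) (p : 𝓞 K → ℝ) (f : (Fin n → 𝓞 K) → ℝ) :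
    exk n X p f = ∑ x ∈ Fintype.piFinset (fun _ : Fin n => X), Wk n p x * f x := rfl

theorem exk_nonneg {n : ℕ} {X : Finset (𝓞 K)} {p : 𝓞 K → ℝ} (h : Wts X p)
    {f : (Fin n → 𝓞 K) → ℝ} (hf : ∀ x ∈ Fintype.piFinset (fun _ : Fin n => X), 0 ≤ f x) :
    0 ≤ exk n X p f := by
  rw [exk_eq]
  exact Finset.sum_nonneg fun x hx => mul_nonneg (Wk_nonneg h hx) (hf x hx)

theorem exk_le {n : ℕ} {X : Finset (𝓞 K)} {p : 𝓞 K → ℝ} (h : Wts X p)
    {f : (Fin n → 𝓞 K) → ℝ} {c : ℝ} (hc : 0 ≤ c)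
    (hf : ∀ x ∈ Fintype.piFinset (fun _ : Fin n => X), f x ≤ c) : exk n X p f ≤ c := by
  rw [exk_eq]
  calc ∑ x ∈ Fintype.piFinset (fun _ : Fin n => X), Wk n p x * f x
      ≤ ∑ x ∈ Fintype.piFinset (fun _ : Fin n => X), Wk n p x * c :=
        Finset.sum_le_sum fun x hx => mul_le_mul_of_nonneg_left (hf x hx) (Wk_nonneg h hx)
    _ = (∑ x ∈ Fintype.piFinset (fun _ : Fin n => X), Wk n p x) * c := by rw [Finset.sum_mul]
    _ ≤ 1 * c := mul_le_mul_of_nonneg_right (sum_Wk_le h) hc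
    _ = c := one_mul c

theorem exk_congr {n : ℕ} {X : Finset (𝓞 K)} {p : 𝓞 K → ℝ} {f g : (Fin n → 𝓞 K) → ℝ}
    (h : ∀ x ∈ Fintype.piFinset (fun _ : Fin n => X), f x = g x) : exk n X p f = exk n X p g := by
  rw [exk_eq, exk_eq]
  exact Finset.sum_congr rfl fun x hx => by rw [h x hx]

theorem exk_sum {n : ℕ} {X : Finset (𝓞 K)} {p : 𝓞 K → ℝ} {ι : Type} (s : Finset ι)
    (f : ι → (Fin n → 𝓞 K) → ℝ) :
    exk n X p (fun x => ∑ i ∈ s, f i x) = ∑ i ∈ s, exk n X p (f i) := by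
  simp only [exk_eq]
  rw [Finset.sum_comm]
  exact Finset.sum_congr rfl fun x _ => by rw [Finset.mul_sum]

theorem exk_mul_const {n : ℕ} {X : Finset (𝓞 K)} {p : 𝓞 K → ℝ} (f : (Fin n → 𝓞 K) → ℝ) (c : ℝ) :
    exk n X p (fun x => f x * c) = exk n X p f * c := by
  simp only [exk_eq]
  rw [Finset.sum_mul]
  exact Finset.sum_congr rfl fun x _ => by ring

theorem sum_piFinset_succ' {R A : Type} [AddCommMonoid A] (n : ℕ) (S : Finset R)
    (f : (Fin (n + 1) → R) → A) :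
    ∑ x ∈ Fintype.piFinset (fun _ : Fin (n + 1) => S), f x =
      ∑ v ∈ Fintype.piFinset (fun _ : Fin n => S), ∑ x ∈ S, f (Fin.cons x v) := by
  rw [← Finset.sum_product']
  refine Finset.sum_bij' (fun x _ => ((fun i => x i.succ, x 0) : (Fin n → R) × R))
    (fun p _ => Fin.cons p.2 p.1) ?_ ?_ ?_ ?_ ?_
  · intro x hx
    rw [Fintype.mem_piFinset] at hx
    rw [Finset.mem_product, Fintype.mem_piFinset]
    exact ⟨fun i => hx _, hx _⟩
  · rintro ⟨v, x⟩ hp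
    rw [Finset.mem_product, Fintype.mem_piFinset] at hp
    rw [Fintype.mem_piFinset]
    intro i
    refine Fin.cases ?_ (fun i => ?_) i
    · simpa using hp.2
    · simpa using hp.1 i
  · intro x _
    exact Fin.cons_self_tail x
  · rintro ⟨v, x⟩ _
    simp
  · intro x _
    show f x = f (Fin.cons (x 0) (fun i => x i.succ))
    congr 1
    exact (Fin.cons_self_tail x).symm

/-- the exponential sum. -/
noncomputable def Ek (n : ℕ) (X : Finset (𝓞 K)) (p g : 𝓞 K → ℝ) (χ : AddChar (𝓞 K) ℂ) : ℂ :=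
  ∑ x ∈ Fintype.piFinset (fun _ : Fin n => X),
    ((Wk n p x * g (∏ i, x i) : ℝ) : ℂ) * χ (∏ i, x i)

/-- the mass of the characters of conductor `J`. -/
noncomputable def Phk (n : ℕ) (X : Finset (𝓞 K)) (p g : 𝓞 K → ℝ) (J : Ideal (𝓞 K)) : ℝ :=
  ∑ χ ∈ Prim J, ‖Ek n X p g χ‖ ^ 2

theorem Phk_nonneg (n : ℕ) (X : Finset (𝓞 K)) (p g : 𝓞 K → ℝ) (J : Ideal (𝓞 K)) :
    0 ≤ Phk n X p g J := Finset.sum_nonneg fun _ _ => by positivity

theorem bot_ne_top' : (⊤ : Ideal (𝓞 K)) ≠ ⊥ := top_ne_bot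

theorem Phk_top (n : ℕ) (X : Finset (𝓞 K)) (p g : 𝓞 K → ℝ) :
    Phk n X p g ⊤ = (exk n X p (fun x => g (∏ i, x i))) ^ 2 := by
  have h1 : Prim (⊤ : Ideal (𝓞 K)) = {1} := by
    ext χ
    rw [mem_Prim bot_ne_top', Finset.mem_singleton]
    constructor
    · intro h
      ext x
      have h2 : x ∈ cnd χ := by rw [h]; trivial
      rw [AddChar.one_apply]
      exact triv_of_cnd h2
    · rintro rfl
      rw [eq_top_iff]
      intro x _ y
      rw [AddChar.one_apply]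
  have h2 : Ek n X p g 1 = ((exk n X p (fun x => g (∏ i, x i)) : ℝ) : ℂ) := by
    unfold Ek
    rw [exk_eq]
    push_cast
    refine Finset.sum_congr rfl fun x _ => ?_
    simp
  unfold Phk
  rw [h1, Finset.sum_singleton, h2, Complex.norm_real, Real.norm_eq_abs, sq_abs]

theorem exk_pair (n : ℕ) (X : Finset (𝓞 K)) (p g : 𝓞 K → ℝ) (τ : 𝓞 K) (hτ : τ ≠ 0) (Q : ℕ)
    (hQ : Ideal.absNorm (Ideal.span {τ}) ≤ Q) :
    nm (Ideal.span {τ}) * exk n X p (fun x => exk n X p (fun x' =>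
        g (∏ i, x i) * g (∏ i, x' i) * ind (∏ i, x i - ∏ i, x' i ∈ Ideal.span {τ}))) =
      ∑ J ∈ IQ K Q, ind (τ ∈ J) * Phk n X p g J := by
  classical
  have hne : Ideal.span {τ} ≠ ⊥ := by
    rw [Ne, Ideal.span_singleton_eq_bot]
    exact hτ
  haveI : NeZero (Ideal.span {τ}) := ⟨hne⟩
  haveI : Fintype (AddChar (𝓞 K ⧸ Ideal.span {τ}) ℂ) := Fintype.ofFinite _
  have h1 := parsevalN (Fintype.piFinset (fun _ : Fin n => X))
    (fun x => Wk n p x * g (∏ i, x i)) (fun x => ∏ i, x i) (Ideal.span {τ})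
  have h2 := sum_cond (fun χ => ‖Ek n X p g χ‖ ^ 2) (Ideal.span {τ}) Q hQ
  simp only [Ideal.span_singleton_le_iff_mem] at h2
  unfold Phk
  rw [← h2]
  unfold Ek
  rw [h1]
  unfold nm
  congr 1
  rw [exk_eq]
  refine Finset.sum_congr rfl fun x _ => ?_
  rw [exk_eq, Finset.mul_sum]
  exact Finset.sum_congr rfl fun x' _ => by ring

/-- the swap. -/
theorem exk_swap (n k : ℕ) (X Y : Finset (𝓞 K)) (p q g : 𝓞 K → ℝ) (Q : ℕ)
    (hY : ∀ y ∈ Fintype.piFinset (fun _ : Fin k => Y), ∏ i, y i ≠ 0 ∧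
      Ideal.absNorm (Ideal.span {∏ i, y i}) ≤ Q) :
    exk k Y q (fun y => nm (Ideal.span {∏ i, y i}) * exk n X p (fun x => exk n X p (fun x' =>
        g (∏ i, x i) * g (∏ i, x' i) * ind (∏ i, x i - ∏ i, x' i ∈ Ideal.span {∏ i, y i})))) =
      ∑ J ∈ IQ K Q, exk k Y q (fun y => ind (∏ i, y i ∈ J)) * Phk n X p g J := by
  have h1 : exk k Y q (fun y => nm (Ideal.span {∏ i, y i}) * exk n X p (fun x =>
        exk n X p (fun x' => g (∏ i, x i) * g (∏ i, x' i) *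
          ind (∏ i, x i - ∏ i, x' i ∈ Ideal.span {∏ i, y i})))) =
      exk k Y q (fun y => ∑ J ∈ IQ K Q, ind (∏ i, y i ∈ J) * Phk n X p g J) := by
    refine exk_congr fun y hy => ?_
    obtain ⟨hy1, hy2⟩ := hY y hy
    exact exk_pair n X p g _ hy1 Q hy2
  rw [h1, exk_sum]
  exact Finset.sum_congr rfl fun J _ => exk_mul_const _ _

theorem cop_prod {M : Ideal (𝓞 K)} {n : ℕ} {X : Finset (𝓞 K)} (hX : ∀ x ∈ X, x ≠ 0 ∧ cop x M)
    (v : Fin n → 𝓞 K) (hv : v ∈ Fintype.piFinset (fun _ : Fin n => X)) :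
    ∏ i, v i ≠ 0 ∧ cop (∏ i, v i) M := by
  rw [Fintype.mem_piFinset] at hv
  refine ⟨Finset.prod_ne_zero_iff.2 fun i _ => (hX _ (hv i)).1, ?_⟩
  unfold cop
  rw [← Ideal.prod_span_singleton]
  exact IsCoprime.prod_left fun i _ => (hX _ (hv i)).2

theorem cop_of_mem {M J : Ideal (𝓞 K)} {x : 𝓞 K} (hx : cop x M) (hJ : x ∈ J) : IsCoprime J M := by
  unfold cop at hx
  rw [Ideal.isCoprime_iff_sup_eq] at hx ⊢
  rw [eq_top_iff, ← hx]
  exact sup_le_sup_right (by rwa [Ideal.span_singleton_le_iff_mem]) _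

theorem prob_nonneg {k : ℕ} {Y : Finset (𝓞 K)} {q : 𝓞 K → ℝ} (h : Wts Y q) (J : Ideal (𝓞 K)) :
    0 ≤ exk k Y q (fun y => ind (∏ i, y i ∈ J)) := exk_nonneg h fun _ _ => ind_nonneg _

theorem prob_le_one {k : ℕ} {Y : Finset (𝓞 K)} {q : 𝓞 K → ℝ} (h : Wts Y q) (J : Ideal (𝓞 K)) :
    exk k Y q (fun y => ind (∏ i, y i ∈ J)) ≤ 1 := exk_le h zero_le_one fun _ _ => ind_le_one _

theorem prob_zero {M : Ideal (𝓞 K)} {k : ℕ} {Y : Finset (𝓞 K)} {q : 𝓞 K → ℝ}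
    (hY : ∀ x ∈ Y, x ≠ 0 ∧ cop x M) (J : Ideal (𝓞 K)) (hJ : ¬ IsCoprime J M) :
    exk k Y q (fun y => ind (∏ i, y i ∈ J)) = 0 := by
  rw [exk_eq]
  refine Finset.sum_eq_zero fun y hy => ?_
  rw [ind_false, mul_zero]
  intro hd
  exact hJ (cop_of_mem (cop_prod hY y hy).2 hd)

/-- shift of a residue class. -/
theorem class_shift {q₀ : Ideal (𝓞 K)} {P : 𝓞 K} (hP : cop P q₀) (κ : 𝓞 K) :
    ∃ κ' : 𝓞 K, ∀ x : 𝓞 K, x * P - κ ∈ q₀ ↔ x - κ' ∈ q₀ := by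
  obtain ⟨i, hi, j, hj, hij⟩ := Ideal.isCoprime_iff_exists.1 hP
  obtain ⟨u, rfl⟩ := Ideal.mem_span_singleton'.1 hi
  refine ⟨κ * u, fun x => ⟨fun h => ?_, fun h => ?_⟩⟩
  · have h1 : x - κ * u = (x * P - κ) * u + x * j := by
      have : j = 1 - u * P := by rw [← hij]; ring
      rw [this]
      ring
    rw [h1]
    exact q₀.add_mem (q₀.mul_mem_right _ h) (q₀.mul_mem_left _ hj)
  · have h1 : x * P - κ = (x - κ * u) * P - κ * j := by
      have : j = 1 - u * P := by rw [← hij]; ring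
      rw [this]
      ring
    rw [h1]
    exact q₀.sub_mem (q₀.mul_mem_right _ h) (q₀.mul_mem_left _ hj)

end Pool.Agent.T9h42.NF
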