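import Pool.Agent.T9h42.NF.SivB

/-!
# The sieve bound over `𝓞 K`, part C: small conductors, the large sieve
-/

set_option autoImplicit false
set_option maxHeartbeats 400000

namespace Pool.Agent.T9h42.NF

open Finset NumberField Pool.Agent.T9h11.NF
open Pool.Agent.T9h57.QD (ind)
open Pool.Agent.T9h42.QD (ind_nonneg ind_le_one ind_true ind_false)

variable {K : Type} [Field K] [NumberField K]

/-- the condition on the product. -/
noncomputable def gK (Ψ : Sp K → ℝ) (z : Sp K) (q₀ : Ideal (𝓞 K)) (κ : 𝓞 K) (f : 𝓞 K) : ℝ :=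
  Ψ (z * E (f : K)) * ind (f - κ ∈ q₀)

theorem gK_nonneg {Ψ : Sp K → ℝ} (hΨ : Adm Ψ) (z : Sp K) (q₀ : Ideal (𝓞 K)) (κ f : 𝓞 K) :
    0 ≤ gK Ψ z q₀ κ f := mul_nonneg (hΨ.1 _).1 (ind_nonneg _)

theorem gK_le_one {Ψ : Sp K → ℝ} (hΨ : Adm Ψ) (z : Sp K) (q₀ : Ideal (𝓞 K)) (κ f : 𝓞 K) :
    gK Ψ z q₀ κ f ≤ 1 := mul_le_one₀ (hΨ.1 _).2 (ind_nonneg _) (ind_le_one _)

theorem cop_of_PD {q₀ M : Ideal (𝓞 K)} (hM : M ≠ ⊥) (hq : q₀ ≠ ⊥) (hPD : PD q₀ M) {P : 𝓞 K}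
    (hP : cop P M) : cop P q₀ := by
  unfold cop at *
  rw [Ideal.isCoprime_iff_sup_eq] at *
  by_contra h
  obtain ⟨m, hm, hle⟩ := Ideal.exists_le_maximal _ h
  have hmp : m.IsPrime := hm.isPrime
  have h1 : q₀ ≤ m := le_sup_right.trans hle
  have hm0 : m ≠ ⊥ := by
    rintro rfl
    exact hq (le_bot_iff.1 h1)
  have h2 : M ≤ m := Ideal.dvd_iff_le.1 (hPD m hmp hm0 (Ideal.dvd_iff_le.2 h1))
  have h3 : Ideal.span {P} ⊔ M ≤ m := sup_le (le_sup_left.trans hle) h2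
  rw [hP] at h3
  exact hm.ne_top (top_le_iff.1 h3)

theorem cnd_eq_cond (χ : AddChar (𝓞 K) ℂ) : cnd χ = cond χ := by
  ext x
  constructor
  · intro h y
    rw [mul_comm]
    exact h y
  · intro h y
    rw [mul_comm]
    exact h y

/-- the one-slot bound. -/
def TwB (X : Finset (𝓞 K)) (p : 𝓞 K → ℝ) (Ψ : Sp K → ℝ) (M q₀ : Ideal (𝓞 K)) (C D : ℝ) : Prop :=
  ∀ (κ : 𝓞 K) (w : Sp K) (h : Ideal (𝓞 K)) (χ : AddChar (𝓞 K) ℂ), h ≠ ⊥ → IsCoprime h M →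
    h ≤ cond χ → (∀ x, ‖χ x‖ = 1) → (∃ x, χ x ≠ 1) →
    ‖∑ x ∈ X, ((p x * Ψ (w * E (x : K)) * ind (x - κ ∈ q₀) : ℝ) : ℂ) * χ x‖ ≤ C * nm h / D

theorem inner_boundK {X : Finset (𝓞 K)} {p : 𝓞 K → ℝ} (hp : Wts X p) {Ψ : Sp K → ℝ} (hΨ : Adm Ψ)
    {M q₀ : Ideal (𝓞 K)} {C D : ℝ} (hC : 0 ≤ C) (hD : 0 < D)
    (hT : TwB X p Ψ M q₀ C D) (z : Sp K) (κ : 𝓞 K) (J : Ideal (𝓞 K)) (hJ : J ≠ ⊥)
    (hJM : IsCoprime J M) (χ : AddChar (𝓞 K) ℂ) (hχ : cnd χ = J) (P : 𝓞 K) (hPq : cop P q₀) :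
    ‖∑ x ∈ X, ((p x * gK Ψ z q₀ κ (x * P) : ℝ) : ℂ) * χ (x * P)‖ ≤ ind (P ∈ J) + C * nm J / D := by
  have hnm : 0 ≤ nm J := by unfold nm; positivity
  have hc0 : 0 ≤ C * nm J / D := by positivity
  have htr : ∀ x ∈ J, χ x = 1 := by
    intro x hx
    rw [← hχ] at hx
    exact triv_of_cnd hx
  have hnorm : ∀ x, ‖χ x‖ = 1 := norm_char hJ htr
  by_cases hd : P ∈ J
  · rw [ind_true hd]
    have h1 : ‖∑ x ∈ X, ((p x * gK Ψ z q₀ κ (x * P) : ℝ) : ℂ) * χ (x * P)‖ ≤ 1 := by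
      refine (norm_sum_le _ _).trans (le_trans (Finset.sum_le_sum fun x hx => ?_) hp.2)
      rw [norm_mul, hnorm, mul_one, Complex.norm_real, Real.norm_eq_abs,
        abs_of_nonneg (mul_nonneg (hp.1 x hx) (gK_nonneg hΨ _ _ _ _))]
      exact mul_le_of_le_one_right (hp.1 x hx) (gK_le_one hΨ _ _ _ _)
    linarith
  · rw [ind_false hd, zero_add]
    obtain ⟨κ', hκ'⟩ := class_shift hPq κ
    have e1 : ∑ x ∈ X, ((p x * gK Ψ z q₀ κ (x * P) : ℝ) : ℂ) * χ (x * P) =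
        ∑ x ∈ X, ((p x * Ψ (z * E (P : K) * E (x : K)) * ind (x - κ' ∈ q₀) : ℝ) : ℂ) *
          (AddChar.mulShift χ P) x := by
      refine Finset.sum_congr rfl fun x _ => ?_
      rw [AddChar.mulShift_apply, mul_comm x P]
      congr 1
      unfold gK
      rw [mul_comm P x]
      have h1 : z * E ((x * P : 𝓞 K) : K) = z * E (P : K) * E (x : K) := by
        have : ((x * P : 𝓞 K) : K) = (P : K) * (x : K) := by
          push_cast
          ring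
        rw [this, map_mul, mul_assoc]
      rw [h1]
      have h2 : ind (x * P - κ ∈ q₀) = ind (x - κ' ∈ q₀) := by
        congr 1
        exact propext (hκ' x)
      rw [h2]
      push_cast
      ring
    rw [e1]
    refine hT κ' _ J _ hJ hJM ?_ ?_ ?_
    · intro x hx y
      rw [AddChar.mulShift_apply]
      apply triv_of_cnd
      rw [hχ]
      exact J.mul_mem_left _ (J.mul_mem_left _ hx)
    · intro x
      rw [AddChar.mulShift_apply]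
      exact hnorm _
    · by_contra hcon
      simp only [not_exists, not_not] at hcon
      apply hd
      rw [← hχ]
      intro y
      have := hcon y
      rwa [AddChar.mulShift_apply] at this

theorem Ek_bound {X : Finset (𝓞 K)} {p : 𝓞 K → ℝ} (hp : Wts X p) {Ψ : Sp K → ℝ} (hΨ : Adm Ψ)
    {M q₀ : Ideal (𝓞 K)} (hX : ∀ x ∈ X, x ≠ 0 ∧ cop x M) (hM : M ≠ ⊥) (hq : q₀ ≠ ⊥) (hPD : PD q₀ M)
    {C D : ℝ} (hC : 0 ≤ C) (hD : 0 < D)
    (hT : TwB X p Ψ M q₀ C D) (n : ℕ) (z : Sp K) (κ : 𝓞 K) (J : Ideal (𝓞 K)) (hJ : J ≠ ⊥)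
    (hJM : IsCoprime J M) (χ : AddChar (𝓞 K) ℂ) (hχ : cnd χ = J) :
    ‖Ek (n + 1) X p (gK Ψ z q₀ κ) χ‖ ≤ exk n X p (fun v => ind (∏ i, v i ∈ J)) + C * nm J / D := by
  classical
  have hnm : 0 ≤ nm J := by unfold nm; positivity
  have hc0 : 0 ≤ C * nm J / D := by positivity
  have e1 : Ek (n + 1) X p (gK Ψ z q₀ κ) χ =
      ∑ v ∈ Fintype.piFinset (fun _ : Fin n => X), ((Wk n p v : ℝ) : ℂ) *
        ∑ x ∈ X, ((p x * gK Ψ z q₀ κ (x * ∏ i, v i) : ℝ) : ℂ) * χ (x * ∏ i, v i) := by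
    unfold Ek
    have e0 := sum_piFinset_succ' n X (fun x : Fin (n + 1) → 𝓞 K =>
      ((Wk (n + 1) p x * gK Ψ z q₀ κ (∏ i, x i) : ℝ) : ℂ) * χ (∏ i, x i))
    rw [e0]
    refine Finset.sum_congr rfl fun v _ => ?_
    rw [Finset.mul_sum]
    refine Finset.sum_congr rfl fun x _ => ?_
    have h1 : Wk (n + 1) p (Fin.cons x v : Fin (n + 1) → 𝓞 K) = p x * Wk n p v := by
      unfold Wk
      rw [Fin.prod_univ_succ]
      simp
    have h2 : (∏ i, (Fin.cons x v : Fin (n + 1) → 𝓞 K) i) = x * ∏ i, v i := by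
      rw [Fin.prod_univ_succ]
      simp
    rw [h1, h2]
    push_cast
    ring
  rw [e1]
  calc ‖∑ v ∈ Fintype.piFinset (fun _ : Fin n => X), ((Wk n p v : ℝ) : ℂ) *
        ∑ x ∈ X, ((p x * gK Ψ z q₀ κ (x * ∏ i, v i) : ℝ) : ℂ) * χ (x * ∏ i, v i)‖
      ≤ ∑ v ∈ Fintype.piFinset (fun _ : Fin n => X),
          Wk n p v * (ind (∏ i, v i ∈ J) + C * nm J / D) := by
        refine (norm_sum_le _ _).trans (Finset.sum_le_sum fun v hv => ?_)
        rw [norm_mul, Complex.norm_real, Real.norm_eq_abs, abs_of_nonneg (Wk_nonneg hp hv)]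
        obtain ⟨-, h2⟩ := cop_prod hX v hv
        exact mul_le_mul_of_nonneg_left (inner_boundK hp hΨ hC hD hT z κ J hJ hJM χ hχ _
          (cop_of_PD hM hq hPD h2)) (Wk_nonneg hp hv)
    _ = exk n X p (fun v => ind (∏ i, v i ∈ J)) +
          (∑ v ∈ Fintype.piFinset (fun _ : Fin n => X), Wk n p v) * (C * nm J / D) := by
        rw [exk_eq, Finset.sum_mul, ← Finset.sum_add_distrib]
        exact Finset.sum_congr rfl fun v _ => by ring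
    _ ≤ _ := by
        have := mul_le_mul_of_nonneg_right (sum_Wk_le (n := n) hp) hc0
        linarith

/-- large sieve. -/
theorem Phk_sum [DecidableEq (𝓞 K)] (CL : ℝ) (hCL : 1 ≤ CL)
    (hL : ∀ (B R : ℝ), 1 ≤ B → 1 ≤ R →
      ∀ 𝒳 : Finset (AddChar (𝓞 K) ℂ), (∀ χ ∈ 𝒳, ∀ x, ‖χ x‖ = 1) →
      (∀ χ ∈ 𝒳, ∀ χ' ∈ 𝒳, χ ≠ χ' → ∃ I : Ideal (𝓞 K), I ≠ ⊥ ∧ nm I ≤ R ∧ ∀ x ∈ I, χ x = χ' x) →
      ∀ (S : Finset (𝓞 K)) (a : 𝓞 K → ℂ), (∀ x ∈ S, ‖E (x : K)‖ ≤ B) →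
        ∑ χ ∈ 𝒳, ‖∑ x ∈ S, a x * χ x‖ ^ 2 ≤
          CL * (B ^ Module.finrank ℚ K + R) * ∑ x ∈ S, ‖a x‖ ^ 2)
    (n : ℕ) {X : Finset (𝓞 K)} {p g : 𝓞 K → ℝ} (hp : Wts X p) (hg : ∀ f, 0 ≤ g f ∧ g f ≤ 1)
    (B : ℝ) (hB : 1 ≤ B)
    (hX : ∀ x ∈ Fintype.piFinset (fun _ : Fin n => X), ‖E ((∏ i, x i : 𝓞 K) : K)‖ ≤ B)
    (m : ℝ) (hm : 0 ≤ m)
    (hmax : ∀ x₀ ∈ Fintype.piFinset (fun _ : Fin n => X),
      ∑ x ∈ (Fintype.piFinset (fun _ : Fin n => X)).filter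
        (fun x => ∏ i, x i = ∏ i, x₀ i), Wk n p x ≤ m)
    (Q : ℕ) (hQ : 1 ≤ Q) :
    ∑ J ∈ IQ K Q, Phk n X p g J ≤ CL * m * (B ^ Module.finrank ℚ K + (Q : ℝ) ^ 2) := by
  classical
  set S : Finset (𝓞 K) := (Fintype.piFinset (fun _ : Fin n => X)).image (fun x => ∏ i, x i) with hS
  have hmaps : ∀ x ∈ Fintype.piFinset (fun _ : Fin n => X), ∏ i, x i ∈ S := fun x hx =>
    Finset.mem_image_of_mem _ hx
  set A : 𝓞 K → ℝ := fun f => ∑ x ∈ (Fintype.piFinset (fun _ : Fin n => X)).filter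
      (fun x => ∏ i, x i = f), Wk n p x * g f with hA
  have hA0 : ∀ f, 0 ≤ A f := fun f => Finset.sum_nonneg fun x hx =>
    mul_nonneg (Wk_nonneg hp (Finset.mem_filter.1 hx).1) (hg f).1
  have hAm : ∀ f ∈ S, A f ≤ m := by
    intro f hf
    obtain ⟨x₀, hx₀, rfl⟩ := Finset.mem_image.1 hf
    refine le_trans (Finset.sum_le_sum fun x hx => ?_) (hmax x₀ hx₀)
    exact mul_le_of_le_one_right (Wk_nonneg hp (Finset.mem_filter.1 hx).1) (hg _).2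
  have hAs : ∑ f ∈ S, A f ≤ 1 := by
    refine le_trans ?_ (sum_Wk_le (n := n) hp)
    rw [← Finset.sum_fiberwise_of_maps_to hmaps]
    refine Finset.sum_le_sum fun f _ => Finset.sum_le_sum fun x hx => ?_
    exact mul_le_of_le_one_right (Wk_nonneg hp (Finset.mem_filter.1 hx).1) (hg _).2
  have e1 : ∀ χ, Ek n X p g χ = ∑ f ∈ S, (A f : ℂ) * χ f := by
    intro χ
    unfold Ek
    rw [← Finset.sum_fiberwise_of_maps_to hmaps]
    refine Finset.sum_congr rfl fun f _ => ?_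
    rw [hA]
    push_cast
    rw [Finset.sum_mul]
    refine Finset.sum_congr rfl fun x hx => ?_
    rw [(Finset.mem_filter.1 hx).2]
  have hdisj : ∀ J ∈ IQ K Q, ∀ J' ∈ IQ K Q, J ≠ J' → Disjoint (Prim J) (Prim J') := by
    intro J hJ J' hJ' hne
    rw [Finset.disjoint_left]
    intro χ h1 h2
    rw [mem_IQ] at hJ hJ'
    rw [mem_Prim hJ.2] at h1
    rw [mem_Prim hJ'.2] at h2
    exact hne (h1.symm.trans h2)
  have h1 : ∑ J ∈ IQ K Q, Phk n X p g J =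
      ∑ χ ∈ (IQ K Q).biUnion Prim, ‖∑ f ∈ S, (A f : ℂ) * χ f‖ ^ 2 := by
    rw [Finset.sum_biUnion (fun J hJ J' hJ' hne => hdisj J hJ J' hJ' hne)]
    refine Finset.sum_congr rfl fun J _ => ?_
    unfold Phk
    refine Finset.sum_congr rfl fun χ _ => ?_
    rw [e1]
  have hmem : ∀ χ ∈ (IQ K Q).biUnion Prim, ∃ J : Ideal (𝓞 K), J ≠ ⊥ ∧ Ideal.absNorm J ≤ Q ∧
      cnd χ = J := by
    intro χ hχ
    rw [Finset.mem_biUnion] at hχ
    obtain ⟨J, hJ, hχJ⟩ := hχ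
    rw [mem_IQ] at hJ
    rw [mem_Prim hJ.2] at hχJ
    exact ⟨J, hJ.2, hJ.1, hχJ⟩
  have hQr : (1 : ℝ) ≤ Q := by exact_mod_cast hQ
  have h2 := hL B ((Q : ℝ) ^ 2) hB (one_le_pow₀ hQr) ((IQ K Q).biUnion Prim)
    (fun χ hχ => by
      obtain ⟨J, h3, _, h4⟩ := hmem χ hχ
      have h5 : ∀ x ∈ J, χ x = 1 := by
        intro x hx
        rw [← h4] at hx
        exact triv_of_cnd hx
      exact norm_char h3 h5)
    (fun χ hχ χ' hχ' _ => by
      obtain ⟨J, h3, h4, h5⟩ := hmem χ hχ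
      obtain ⟨J', h3', h4', h5'⟩ := hmem χ' hχ'
      refine ⟨J * J', mul_ne_zero h3 h3', ?_, fun x hx => ?_⟩
      · unfold nm
        rw [map_mul]
        push_cast
        rw [sq]
        have a1 : (Ideal.absNorm J : ℝ) ≤ Q := by exact_mod_cast h4
        have a2 : (Ideal.absNorm J' : ℝ) ≤ Q := by exact_mod_cast h4'
        gcongr
      · have b0 : x ∈ J ⊓ J' := Ideal.mul_le_inf hx
        have b1 : x ∈ J := b0.1
        have b2 : x ∈ J' := b0.2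
        rw [← h5] at b1
        rw [← h5'] at b2
        rw [triv_of_cnd b1, triv_of_cnd b2])
    S (fun f => (A f : ℂ)) (fun f hf => by
      obtain ⟨x₀, hx₀, rfl⟩ := Finset.mem_image.1 hf
      exact hX x₀ hx₀)
  have h3 : ∑ f ∈ S, ‖((A f : ℝ) : ℂ)‖ ^ 2 ≤ m := by
    calc ∑ f ∈ S, ‖((A f : ℝ) : ℂ)‖ ^ 2 ≤ ∑ f ∈ S, m * A f := by
          refine Finset.sum_le_sum fun f hf => ?_
          rw [Complex.norm_real, Real.norm_eq_abs, sq_abs, sq]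
          exact mul_le_mul_of_nonneg_right (hAm f hf) (hA0 f)
      _ = m * ∑ f ∈ S, A f := by rw [Finset.mul_sum]
      _ ≤ m * 1 := mul_le_mul_of_nonneg_left hAs hm
      _ = m := mul_one m
  rw [h1]
  refine h2.trans ?_
  calc CL * (B ^ Module.finrank ℚ K + (Q : ℝ) ^ 2) * ∑ f ∈ S, ‖((A f : ℝ) : ℂ)‖ ^ 2
      ≤ CL * (B ^ Module.finrank ℚ K + (Q : ℝ) ^ 2) * m :=
        mul_le_mul_of_nonneg_left h3 (by positivity)
    _ = _ := by ring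

theorem finite_dvd {I : Ideal (𝓞 K)} (hI : I ≠ ⊥) : Finite {J : Ideal (𝓞 K) // J ∣ I} :=
  @Finite.of_fintype _ (UniqueFactorizationMonoid.fintypeSubtypeDvd I hI)

theorem max_boundK [DecidableEq (𝓞 K)] (n : ℕ) {X : Finset (𝓞 K)} {p : 𝓞 K → ℝ} (hp : Wts X p) (c : ℝ) (hc : 0 ≤ c)
    (hpc : ∀ x ∈ X, p x ≤ c) (U : ℕ)
    (hU : ∀ (I : Ideal (𝓞 K)) (S : Finset (𝓞 K)), S ⊆ X → (∀ x ∈ S, Ideal.span {x} = I) →
      S.card ≤ U) (f : 𝓞 K) (hf : f ≠ 0) :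
    ∑ x ∈ (Fintype.piFinset (fun _ : Fin n => X)).filter (fun x => ∏ i, x i = f), Wk n p x ≤
      c ^ n * ((U : ℝ) * nd (Ideal.span {f})) ^ n := by
  classical
  have hfs : Ideal.span {f} ≠ ⊥ := by rwa [Ne, Ideal.span_singleton_eq_bot]
  haveI := finite_dvd hfs
  haveI : Fintype {J : Ideal (𝓞 K) // J ∣ Ideal.span {f}} := Fintype.ofFinite _
  have h1 : ∀ x ∈ (Fintype.piFinset (fun _ : Fin n => X)).filter (fun x => ∏ i, x i = f),
      Wk n p x ≤ c ^ n := by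
    intro x hx
    rw [Finset.mem_filter, Fintype.mem_piFinset] at hx
    unfold Wk
    calc ∏ i, p (x i) ≤ ∏ _i : Fin n, c :=
          Finset.prod_le_prod (fun i _ => hp.1 _ (hx.1 i)) fun i _ => hpc _ (hx.1 i)
      _ = c ^ n := by simp
  set Xf : Finset (𝓞 K) := X.filter (fun x => Ideal.span {x} ∣ Ideal.span {f}) with hXf
  have hcard : Xf.card ≤ U * Nat.card {J : Ideal (𝓞 K) // J ∣ Ideal.span {f}} := by
    refine (Finset.card_le_mul_card_image (f := fun x : 𝓞 K => Ideal.span {x}) Xf U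
      (fun I _ => ?_)).trans (Nat.mul_le_mul_left _ ?_)
    · apply hU I
      · intro x hx
        exact (Finset.mem_filter.1 (Finset.mem_filter.1 hx).1).1
      · intro x hx
        exact (Finset.mem_filter.1 hx).2
    · rw [Nat.card_eq_fintype_card, ← Finset.card_univ,
        ← Finset.card_map (Function.Embedding.subtype _)]
      apply Finset.card_le_card
      intro J hJ
      rw [Finset.mem_image] at hJ
      obtain ⟨x, hx, rfl⟩ := hJ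
      rw [Finset.mem_map]
      exact ⟨⟨_, (Finset.mem_filter.1 hx).2⟩, Finset.mem_univ _, rfl⟩
  have h2 : ((Fintype.piFinset (fun _ : Fin n => X)).filter (fun x => ∏ i, x i = f)).card ≤
      Xf.card ^ n := by
    rw [← Fintype.card_piFinset_const]
    apply Finset.card_le_card
    intro x hx
    rw [Finset.mem_filter, Fintype.mem_piFinset] at hx
    rw [Fintype.mem_piFinset]
    intro i
    rw [hXf, Finset.mem_filter]
    refine ⟨hx.1 i, ?_⟩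
    rw [← hx.2, ← Ideal.prod_span_singleton]
    exact Finset.dvd_prod_of_mem _ (Finset.mem_univ i)
  calc _ ≤ ∑ _x ∈ (Fintype.piFinset (fun _ : Fin n => X)).filter (fun x => ∏ i, x i = f), c ^ n :=
        Finset.sum_le_sum h1
    _ = (((Fintype.piFinset (fun _ : Fin n => X)).filter (fun x => ∏ i, x i = f)).card : ℝ) * c ^ n := by
        rw [Finset.sum_const, nsmul_eq_mul]
    _ ≤ ((U : ℝ) * nd (Ideal.span {f})) ^ n * c ^ n := by
        refine mul_le_mul_of_nonneg_right ?_ (by positivity)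
        unfold nd
        have h3 := h2.trans (Nat.pow_le_pow_left hcard n)
        exact_mod_cast h3
    _ = _ := by ring

/-- sum over the ideals of norm `m`. -/
noncomputable def nsum (F : Ideal (𝓞 K) → ℝ) (m : ℕ) : ℝ := by
  classical
  exact ∑ J ∈ (IQ K m).filter (fun J => Ideal.absNorm J = m), F J

theorem nsum_sum (F : Ideal (𝓞 K) → ℝ) (Q : ℕ) :
    ∑ m ∈ Icc 1 Q, nsum F m = ∑ J ∈ IQ K Q, F J := by
  classical
  have hmaps : ∀ J ∈ IQ K Q, Ideal.absNorm J ∈ Icc 1 Q := by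
    intro J hJ
    rw [mem_IQ] at hJ
    rw [Finset.mem_Icc]
    exact ⟨Nat.pos_of_ne_zero (by rw [Ne, Ideal.absNorm_eq_zero_iff]; exact hJ.2), hJ.1⟩
  rw [← Finset.sum_fiberwise_of_maps_to hmaps]
  refine Finset.sum_congr rfl fun m hm => ?_
  unfold nsum
  refine Finset.sum_congr ?_ fun _ _ => rfl
  ext J
  rw [Finset.mem_Icc] at hm
  simp only [Finset.mem_filter, mem_IQ]
  constructor
  · rintro ⟨⟨h1, h2⟩, h3⟩
    exact ⟨⟨by omega, h2⟩, h3⟩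
  · rintro ⟨⟨h1, h2⟩, h3⟩
    exact ⟨⟨by omega, h2⟩, h3⟩

theorem nsum_Ioc (F : Ideal (𝓞 K) → ℝ) (D₁ Q : ℕ) :
    ∑ m ∈ Ioc D₁ Q, nsum F m / m =
      ∑ J ∈ (IQ K Q).filter (fun J => D₁ < Ideal.absNorm J), F J / nm J := by
  classical
  have hmaps : ∀ J ∈ (IQ K Q).filter (fun J => D₁ < Ideal.absNorm J), Ideal.absNorm J ∈ Ioc D₁ Q := by
    intro J hJ
    rw [Finset.mem_filter, mem_IQ] at hJ
    rw [Finset.mem_Ioc]
    exact ⟨hJ.2, hJ.1.1⟩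
  rw [← Finset.sum_fiberwise_of_maps_to hmaps]
  refine Finset.sum_congr rfl fun m hm => ?_
  unfold nsum
  rw [Finset.sum_div]
  rw [Finset.mem_Ioc] at hm
  refine Finset.sum_congr ?_ fun J hJ => ?_
  · ext J
    simp only [Finset.mem_filter, mem_IQ]
    constructor
    · rintro ⟨⟨h1, h2⟩, h3⟩
      exact ⟨⟨⟨by omega, h2⟩, by omega⟩, h3⟩
    · rintro ⟨⟨⟨h1, h2⟩, h4⟩, h3⟩
      exact ⟨⟨by omega, h2⟩, h3⟩
  · rw [Finset.mem_filter] at hJ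
    unfold nm
    rw [hJ.2]

theorem nsum_nonneg {F : Ideal (𝓞 K) → ℝ} (hF : ∀ J, 0 ≤ F J) (m : ℕ) : 0 ≤ nsum F m :=
  Finset.sum_nonneg fun J _ => hF J

theorem top_mem_IQ {Q : ℕ} (hQ : 1 ≤ Q) : (⊤ : Ideal (𝓞 K)) ∈ IQ K Q := by
  rw [mem_IQ, Ideal.absNorm_top]
  exact ⟨hQ, bot_ne_top'⟩

theorem sum_splitK (f : Ideal (𝓞 K) → ℝ) (hf : ∀ J, 0 ≤ f J) (w D₁ Q : ℕ)
    (h0 : ∀ J, J ≠ ⊤ → Ideal.absNorm J ≤ w → f J = 0) :
    ∑ J ∈ IQ K Q, f J ≤ f ⊤ +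
      ∑ J ∈ (IQ K D₁).filter (fun J => w < Ideal.absNorm J), f J +
      ∑ J ∈ (IQ K Q).filter (fun J => D₁ < Ideal.absNorm J), f J := by
  classical
  have h1 : ∑ J ∈ IQ K Q, f J ≤ ∑ J ∈ ({⊤} ∪ (IQ K D₁).filter (fun J => w < Ideal.absNorm J)) ∪
      (IQ K Q).filter (fun J => D₁ < Ideal.absNorm J), f J := by
    rw [← Finset.sum_filter_ne_zero]
    refine Finset.sum_le_sum_of_subset_of_nonneg ?_ fun i _ _ => hf i
    intro J hh
    rw [Finset.mem_filter] at hh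
    simp only [Finset.mem_union, Finset.mem_singleton, Finset.mem_filter]
    have hQ := mem_IQ.1 hh.1
    by_cases h2 : J = ⊤
    · exact Or.inl (Or.inl h2)
    · have h3 : w < Ideal.absNorm J := by
        by_contra h4
        exact hh.2 (h0 J h2 (by omega))
      rcases Nat.lt_or_ge D₁ (Ideal.absNorm J) with h5 | h5
      · exact Or.inr ⟨hh.1, h5⟩
      · exact Or.inl (Or.inr ⟨mem_IQ.2 ⟨h5, hQ.2⟩, h3⟩)
  have hu : ∀ s t : Finset (Ideal (𝓞 K)), ∑ J ∈ s ∪ t, f J ≤ ∑ J ∈ s, f J + ∑ J ∈ t, f J := by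
    intro s t
    rw [← Finset.sum_union_inter]
    have : 0 ≤ ∑ J ∈ s ∩ t, f J := Finset.sum_nonneg fun i _ => hf i
    linarith
  have h2 := hu ({⊤} ∪ (IQ K D₁).filter (fun J => w < Ideal.absNorm J))
    ((IQ K Q).filter (fun J => D₁ < Ideal.absNorm J))
  have h3 := hu {⊤} ((IQ K D₁).filter (fun J => w < Ideal.absNorm J))
  rw [Finset.sum_singleton] at h3
  linarith

/-- divisors of ideals without small prime factors. -/
theorem tau_roughK (hRT : RoughTauK K) (w Kk : ℕ) (M : Ideal (𝓞 K)) (hw : 2 ≤ w)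
    (hwM : SmallDvd w M) (hK : 2 ^ Kk ≤ w) (J : Ideal (𝓞 K)) (h0 : J ≠ ⊥) (hc : IsCoprime J M)
    (N : ℕ) (hN : Ideal.absNorm J ≤ N) :
    nd J ≤ ((2 ^ Nat.log w N : ℕ) : ℝ) ∧ (2 ^ Nat.log w N) ^ Kk ≤ N := by
  have hJ0 : 0 < Ideal.absNorm J :=
    Nat.pos_of_ne_zero (by rw [Ne, Ideal.absNorm_eq_zero_iff]; exact h0)
  constructor
  · have h1 := hRT w J hw h0 (fun p hp hp0 hd => by
      by_contra hlt
      have h1 := hwM p hp hp0 (by omega)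
      rw [Ideal.isCoprime_iff_sup_eq] at hc
      have h2 : J ⊔ M ≤ p := sup_le (Ideal.dvd_iff_le.1 hd) (Ideal.dvd_iff_le.1 h1)
      rw [hc] at h2
      exact hp.ne_top (top_le_iff.1 h2))
    refine h1.trans ?_
    have h2 : 2 ^ Nat.log w (Ideal.absNorm J) ≤ 2 ^ Nat.log w N :=
      Nat.pow_le_pow_right (by norm_num) (Nat.log_mono_right hN)
    exact_mod_cast h2
  · rw [← pow_mul, mul_comm, pow_mul]
    exact (Nat.pow_le_pow_left hK _).trans (Nat.pow_log_le_self w (by omega))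

theorem rough_gtK (w : ℕ) (M : Ideal (𝓞 K)) (hwM : SmallDvd w M) (J : Ideal (𝓞 K)) (h0 : J ≠ ⊥)
    (h1 : J ≠ ⊤) (hc : IsCoprime J M) : w < Ideal.absNorm J := by
  by_contra hlt
  obtain ⟨m, hm, hle⟩ := Ideal.exists_le_maximal _ h1
  have hm0 : m ≠ ⊥ := by
    rintro rfl
    exact h0 (le_bot_iff.1 hle)
  have h2 : Ideal.absNorm m ≤ Ideal.absNorm J :=
    Nat.le_of_dvd (Nat.pos_of_ne_zero (by rw [Ne, Ideal.absNorm_eq_zero_iff]; exact h0))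
      (Ideal.absNorm_dvd_absNorm_of_le hle)
  have h3 := hwM m hm.isPrime hm0 (by omega)
  rw [Ideal.isCoprime_iff_sup_eq] at hc
  have h4 : J ⊔ M ≤ m := sup_le hle (Ideal.dvd_iff_le.1 h3)
  rw [hc] at h4
  exact hm.ne_top (top_le_iff.1 h4)

end Pool.Agent.T9h42.NF
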