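import Pool.Agent.T9h42.NF.SivC
import Pool.Agent.T9h42.QD.SieveBd

/-!
# The sieve bound over `𝓞 K`, part D: slots, small conductors
-/

set_option autoImplicit false
set_option maxHeartbeats 400000

namespace Pool.Agent.T9h42.NF

open Finset NumberField Pool.Agent.T9h11.NF
open Pool.Agent.T9h57.QD (ind)
open Pool.Agent.T9h42.QD (ind_nonneg ind_le_one ind_true ind_false)

variable {K : Type} [Field K] [NumberField K]

theorem nrm_nonneg' (z : Sp K) : 0 ≤ nrm z := Finset.prod_nonneg fun v _ => by positivity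

theorem wl_nonneg' {ρ : Sp K → ℝ} (hρ : Adm ρ) (D : ℝ) (x : 𝓞 K) : 0 ≤ wl ρ D x :=
  div_nonneg (hρ.1 _).1 (nrm_nonneg' _)

theorem pr_nonneg' {f : 𝓞 K → ℝ} (hf : ∀ x, 0 ≤ f x) (S : Finset (𝓞 K)) (x : 𝓞 K) :
    0 ≤ pr f S x :=
  div_nonneg (hf x) (Finset.sum_nonneg fun y _ => hf y)

theorem pr_wts {f : 𝓞 K → ℝ} (hf : ∀ x, 0 ≤ f x) (S : Finset (𝓞 K)) : Wts S (pr f S) := by
  refine ⟨fun x _ => pr_nonneg' hf S x, ?_⟩
  unfold pr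
  rw [← Finset.sum_div]
  exact div_self_le_one _

theorem slot_ne {ρ : Sp K → ℝ} (hρ : Adm ρ) {M : Ideal (𝓞 K)} {D : ℝ} {S : Finset (𝓞 K)}
    (hS : IsSlot ρ M D S) {x : 𝓞 K} (hx : x ∈ S) : x ≠ 0 ∧ cop x M := by
  refine ⟨?_, ((hS x).1 hx).1⟩
  rintro rfl
  have h := ((hS 0).1 hx).2
  obtain ⟨-, -, ⟨c₁, c₂, hc₁, hc⟩, -⟩ := hρ
  have h1 := (hc _ h (Classical.arbitrary _)).1
  simp at h1
  linarith

/-- products over a slot. -/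
theorem slot_bound {ρ : Sp K → ℝ} (hρ : Adm ρ) : ∃ c : ℝ, 1 ≤ c ∧ ∀ (M : Ideal (𝓞 K)) (D : ℝ)
    (S : Finset (𝓞 K)), 0 < D → IsSlot ρ M D S → ∀ (n : ℕ),
    ∀ x ∈ Fintype.piFinset (fun _ : Fin n => S), ‖E ((∏ i, x i : 𝓞 K) : K)‖ ≤ (c * D) ^ n := by
  obtain ⟨-, -, ⟨c₁, c₂, hc₁, hc⟩, -⟩ := hρ
  refine ⟨max c₂ 1, le_max_right _ _, fun M D S hD hS n x hx => ?_⟩
  have hm : (1 : ℝ) ≤ max c₂ 1 := le_max_right _ _
  rw [Fintype.mem_piFinset] at hx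
  rw [pi_norm_le_iff_of_nonneg (by positivity)]
  intro v
  have h1 : E ((∏ i, x i : 𝓞 K) : K) v = ∏ i, E (x i : K) v := by
    have : ((∏ i, x i : 𝓞 K) : K) = ∏ i, (x i : K) := by push_cast; rfl
    rw [this, map_prod, Finset.prod_apply]
  rw [h1, norm_prod]
  calc ∏ i, ‖E (x i : K) v‖ ≤ ∏ _i : Fin n, (max c₂ 1 * D) := by
        refine Finset.prod_le_prod (fun i _ => norm_nonneg _) fun i _ => ?_
        have h2 := (hc _ ((hS _).1 (hx i)).2 v).2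
        rw [Pi.smul_apply, norm_smul, norm_inv, Real.norm_eq_abs, abs_of_pos hD] at h2
        have h3 : ‖E (x i : K) v‖ = D * (D⁻¹ * ‖E (x i : K) v‖) := by
          field_simp
        rw [h3, mul_comm (max c₂ 1) D]
        exact mul_le_mul_of_nonneg_left (h2.trans (le_max_left _ _)) hD.le
    _ = (max c₂ 1 * D) ^ n := by simp

theorem sqrt_three_half {h : ℝ} (hh : 0 < h) : Real.sqrt h / h ^ 2 = 1 / h ^ (3 / 2 : ℝ) := by
  rw [div_eq_div_iff (by positivity) (by positivity), Real.sqrt_eq_rpow, ← Real.rpow_add hh,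
    one_mul, ← Real.rpow_natCast]
  norm_num

theorem nm_pos {J : Ideal (𝓞 K)} (h : J ≠ ⊥) : 1 ≤ nm J := by
  unfold nm
  have : 1 ≤ Ideal.absNorm J :=
    Nat.pos_of_ne_zero (by rw [Ne, Ideal.absNorm_eq_zero_iff]; exact h)
  exact_mod_cast this

theorem ne_bot_of_dvd {g J : Ideal (𝓞 K)} (h : J ≠ ⊥) (hg : g ∣ J) : g ≠ ⊥ := by
  rintro rfl
  exact h (zero_dvd_iff.1 hg)

theorem absNorm_le_of_dvd {g J : Ideal (𝓞 K)} (h : J ≠ ⊥) (hg : g ∣ J) :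
    Ideal.absNorm g ≤ Ideal.absNorm J :=
  Nat.le_of_dvd (Nat.pos_of_ne_zero (by rw [Ne, Ideal.absNorm_eq_zero_iff]; exact h))
    (Ideal.absNorm_dvd_absNorm_of_le (Ideal.dvd_iff_le.1 hg))

theorem nd_nonneg (J : Ideal (𝓞 K)) : 0 ≤ nd J := by unfold nd; positivity

/-- one small conductor. -/
theorem small_part {X Y : Finset (𝓞 K)} {p q : 𝓞 K → ℝ} (hp : Wts X p) (hq : Wts Y q)
    (hp0 : ∀ x, 0 ≤ p x) (hq0 : ∀ x, 0 ≤ q x) {Ψ : Sp K → ℝ} (hΨ : Adm Ψ) {M q₀ : Ideal (𝓞 K)}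
    (hX : ∀ x ∈ X, x ≠ 0 ∧ cop x M) (hY : ∀ x ∈ Y, x ≠ 0 ∧ cop x M)
    (hM : M ≠ ⊥) (hqb : q₀ ≠ ⊥) (hPD : PD q₀ M) (hRT : RoughTauK K) (hDP : DivProdK K)
    {CT D : ℝ} (hCT : 0 ≤ CT) (hD : 0 < D) (hT : TwB X p Ψ M q₀ CT D) (n' k : ℕ) (z : Sp K)
    (κ : 𝓞 K) (w : ℕ) (hw : 2 ≤ w) (hwM : SmallDvd w M) (hwK : 2 ^ (6 * (n' + k)) ≤ w) (D₁ : ℕ)
    (hXg : ∀ g : Ideal (𝓞 K), g ≠ ⊥ → Ideal.absNorm g ≤ D₁ →
      ∑ x ∈ X, p x * ind (x ∈ g) ≤ 2 / nm g)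
    (hYg : ∀ g : Ideal (𝓞 K), g ≠ ⊥ → Ideal.absNorm g ≤ D₁ →
      ∑ x ∈ Y, q x * ind (x ∈ g) ≤ 2 / nm g)
    (J : Ideal (𝓞 K)) (hJ0 : J ≠ ⊥) (hJ2 : Ideal.absNorm J ≤ D₁) :
    exk k Y q (fun y => ind (∏ i, y i ∈ J)) * Phk (n' + 1) X p (gK Ψ z q₀ κ) J ≤
      2 * 8 ^ (n' + k) * (1 / nm J ^ (3 / 2 : ℝ)) +
        2 * 8 ^ (n' + k) * CT ^ 2 * (D₁ : ℝ) ^ 3 / D ^ 2 := by
  have hh : 1 ≤ nm J := nm_pos hJ0
  by_cases hc : IsCoprime J M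
  swap
  · rw [prob_zero hY J hc, zero_mul]
    positivity
  obtain ⟨ht1, ht2⟩ := tau_roughK hRT w (6 * (n' + k)) M hw hwM hwK J hJ0 hc (Ideal.absNorm J) le_rfl
  set t : ℕ := 2 ^ Nat.log w (Ideal.absNorm J) with ht
  have htr : (1 : ℝ) ≤ t := by
    have : 1 ≤ t := Nat.one_le_two_pow
    exact_mod_cast this
  have hdiv : ∀ (S : Finset (𝓞 K)) (r : 𝓞 K → ℝ) (j : ℕ), j ≤ n' + k → (∀ x, 0 ≤ r x) →
      (∀ g : Ideal (𝓞 K), g ≠ ⊥ → Ideal.absNorm g ≤ D₁ →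
        ∑ x ∈ S, r x * ind (x ∈ g) ≤ 2 / nm g) →
      exk j S r (fun x => ind (∏ i, x i ∈ J)) ≤ (2 * (t : ℝ)) ^ (n' + k) / nm J := by
    intro S r j hj hr hS
    refine (hDP S r J 2 j hJ0 (by norm_num) hr fun g hg =>
      hS g (ne_bot_of_dvd hJ0 hg) ((absNorm_le_of_dvd hJ0 hg).trans hJ2)).trans ?_
    have h2 : (nd J) ^ j * 2 ^ j ≤ (2 * (t : ℝ)) ^ (n' + k) := by
      rw [← mul_pow]
      calc (nd J * 2) ^ j ≤ (2 * (t : ℝ)) ^ j := by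
            apply pow_le_pow_left₀ (by have := nd_nonneg J; positivity)
            linarith
        _ ≤ (2 * (t : ℝ)) ^ (n' + k) := pow_le_pow_right₀ (by linarith) hj
    gcongr
  have hpY := hdiv Y q k (by omega) hq0 hYg
  have hpX := hdiv X p n' (by omega) hp0 hXg
  have hE0 : 0 ≤ exk n' X p (fun v => ind (∏ i, v i ∈ J)) + CT * nm J / D := by
    have := prob_nonneg (k := n') hp J
    positivity
  have hPh : Phk (n' + 1) X p (gK Ψ z q₀ κ) J ≤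
      nm J * (exk n' X p (fun v => ind (∏ i, v i ∈ J)) + CT * nm J / D) ^ 2 := by
    unfold Phk
    calc ∑ χ ∈ Prim J, ‖Ek (n' + 1) X p (gK Ψ z q₀ κ) χ‖ ^ 2
        ≤ ∑ _χ ∈ Prim J, (exk n' X p (fun v => ind (∏ i, v i ∈ J)) + CT * nm J / D) ^ 2 := by
          refine Finset.sum_le_sum fun χ hχ => ?_
          rw [mem_Prim hJ0] at hχ
          exact pow_le_pow_left₀ (norm_nonneg _) (Ek_bound hp hΨ hX hM hqb hPD hCT hD hT n' z κ J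
            hJ0 hc χ hχ) 2
      _ = ((Prim J).card : ℝ) *
            (exk n' X p (fun v => ind (∏ i, v i ∈ J)) + CT * nm J / D) ^ 2 := by
          rw [Finset.sum_const, nsmul_eq_mul]
      _ ≤ _ := by
          refine mul_le_mul_of_nonneg_right ?_ (by positivity)
          unfold nm
          exact_mod_cast card_Prim hJ0
  have ht2r : (t : ℝ) ^ (6 * (n' + k)) ≤ nm J := by
    unfold nm
    exact_mod_cast ht2
  have hnum := Pool.Agent.T9h42.QD.small_num (n' + k) t (nm J) D CT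
    (exk k Y q (fun y => ind (∏ i, y i ∈ J)))
    (exk n' X p (fun v => ind (∏ i, v i ∈ J)) + CT * nm J / D) htr hh hD hCT
    ht2r (prob_nonneg hq J) hpY hE0 (by linarith)
  rw [← sqrt_three_half (by linarith)]
  calc exk k Y q (fun y => ind (∏ i, y i ∈ J)) * Phk (n' + 1) X p (gK Ψ z q₀ κ) J
      ≤ exk k Y q (fun y => ind (∏ i, y i ∈ J)) *
        (nm J * (exk n' X p (fun v => ind (∏ i, v i ∈ J)) + CT * nm J / D) ^ 2) :=
        mul_le_mul_of_nonneg_left hPh (prob_nonneg hq J)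
    _ ≤ 2 * 8 ^ (n' + k) * (Real.sqrt (nm J) / (nm J) ^ 2) +
          2 * 8 ^ (n' + k) * CT ^ 2 * (nm J) ^ 3 / D ^ 2 := hnum
    _ ≤ _ := by
        have : nm J ≤ D₁ := by
          unfold nm
          exact_mod_cast hJ2
        gcongr

/-- all small conductors. -/
theorem small_sum {f : Ideal (𝓞 K) → ℝ} {CI : ℝ} (hCI : 1 ≤ CI)
    (hI1 : ∀ (Q : ℝ) (S : Finset (Ideal (𝓞 K))), 1 ≤ Q → (∀ I ∈ S, I ≠ ⊥ ∧ nm I ≤ Q) →
      (S.card : ℝ) ≤ CI * Q)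
    (hI2 : ∀ (w : ℝ) (S : Finset (Ideal (𝓞 K))), 1 ≤ w → (∀ I ∈ S, I ≠ ⊥ ∧ w ≤ nm I) →
      ∑ I ∈ S, 1 / (nm I) ^ (3 / 2 : ℝ) ≤ CI / w ^ (1 / 2 : ℝ))
    (w D₁ : ℕ) (hw : 1 ≤ w) (hD₁ : 1 ≤ D₁) (a b : ℝ) (ha : 0 ≤ a) (hb : 0 ≤ b)
    (hf : ∀ J : Ideal (𝓞 K), J ≠ ⊥ → Ideal.absNorm J ≤ D₁ → f J ≤ a * (1 / nm J ^ (3 / 2 : ℝ)) + b) :
    ∑ J ∈ (IQ K D₁).filter (fun J => w < Ideal.absNorm J), f J ≤
      a * (CI / (w : ℝ) ^ (1 / 2 : ℝ)) + CI * D₁ * b := by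
  classical
  have hmem : ∀ J ∈ (IQ K D₁).filter (fun J => w < Ideal.absNorm J), J ≠ ⊥ ∧
      Ideal.absNorm J ≤ D₁ ∧ w < Ideal.absNorm J := by
    intro J hJ
    rw [Finset.mem_filter, mem_IQ] at hJ
    exact ⟨hJ.1.2, hJ.1.1, hJ.2⟩
  calc ∑ J ∈ (IQ K D₁).filter (fun J => w < Ideal.absNorm J), f J
      ≤ ∑ J ∈ (IQ K D₁).filter (fun J => w < Ideal.absNorm J),
          (a * (1 / nm J ^ (3 / 2 : ℝ)) + b) := by
        refine Finset.sum_le_sum fun J hJ => ?_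
        obtain ⟨h1, h2, -⟩ := hmem J hJ
        exact hf J h1 h2
    _ = a * ∑ J ∈ (IQ K D₁).filter (fun J => w < Ideal.absNorm J), 1 / nm J ^ (3 / 2 : ℝ) +
          (((IQ K D₁).filter (fun J => w < Ideal.absNorm J)).card : ℝ) * b := by
        rw [Finset.sum_add_distrib, Finset.mul_sum, Finset.sum_const, nsmul_eq_mul]
    _ ≤ a * (CI / (w : ℝ) ^ (1 / 2 : ℝ)) + CI * D₁ * b := by
        have h1 := hI1 D₁ _ (by exact_mod_cast hD₁) (fun J hJ => by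
          obtain ⟨h1, h2, -⟩ := hmem J hJ
          refine ⟨h1, ?_⟩
          unfold nm
          exact_mod_cast h2)
        have h2 := hI2 w _ (by exact_mod_cast hw) (fun J hJ => by
          obtain ⟨h1, -, h2⟩ := hmem J hJ
          refine ⟨h1, ?_⟩
          unfold nm
          exact_mod_cast h2.le)
        gcongr

end Pool.Agent.T9h42.NF
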