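import Pool.Agent.T9h42.NF.SivD

/-!
# The sieve bound over `𝓞 K`, part E: large conductors
-/

set_option autoImplicit false
set_option maxHeartbeats 400000

namespace Pool.Agent.T9h42.NF

open Finset NumberField Pool.Agent.T9h11.NF
open Pool.Agent.T9h57.QD (ind)
open Pool.Agent.T9h42.QD (ind_nonneg ind_le_one ind_true ind_false)

variable {K : Type} [Field K] [NumberField K]

/-- all large conductors. -/
theorem large_part [DecidableEq (𝓞 K)] {X Y : Finset (𝓞 K)} {p q g : 𝓞 K → ℝ} (hp : Wts X p)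
    (hq0 : ∀ x, 0 ≤ q x) (hg : ∀ f, 0 ≤ g f ∧ g f ≤ 1) {M : Ideal (𝓞 K)}
    (hX : ∀ x ∈ X, x ≠ 0 ∧ cop x M) (hY : ∀ x ∈ Y, x ≠ 0 ∧ cop x M)
    (hRT : RoughTauK K) (hDP : DivProdK K) (CL : ℝ) (hCL : 1 ≤ CL)
    (hL : ∀ (B R : ℝ), 1 ≤ B → 1 ≤ R →
      ∀ 𝒳 : Finset (AddChar (𝓞 K) ℂ), (∀ χ ∈ 𝒳, ∀ x, ‖χ x‖ = 1) →
      (∀ χ ∈ 𝒳, ∀ χ' ∈ 𝒳, χ ≠ χ' → ∃ I : Ideal (𝓞 K), I ≠ ⊥ ∧ nm I ≤ R ∧ ∀ x ∈ I, χ x = χ' x) →
      ∀ (S : Finset (𝓞 K)) (a : 𝓞 K → ℂ), (∀ x ∈ S, ‖E (x : K)‖ ≤ B) →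
        ∑ χ ∈ 𝒳, ‖∑ x ∈ S, a x * χ x‖ ^ 2 ≤
          CL * (B ^ Module.finrank ℚ K + R) * ∑ x ∈ S, ‖a x‖ ^ 2)
    (n k w : ℕ) (hw : 2 ≤ w) (hwM : SmallDvd w M) (D₁ Q N : ℕ) (hD₁ : 1 ≤ D₁)
    (B : ℝ) (hB : 1 ≤ B)
    (hXB : ∀ x ∈ Fintype.piFinset (fun _ : Fin n => X), ‖E ((∏ i, x i : 𝓞 K) : K)‖ ≤ B)
    (hXN : ∀ x ∈ Fintype.piFinset (fun _ : Fin n => X),
      Ideal.absNorm (Ideal.span {∏ i, x i}) ≤ N)
    (cX : ℝ) (hcX : 0 ≤ cX) (hpc : ∀ x ∈ X, p x ≤ cX) (U : ℕ)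
    (hU : ∀ (I : Ideal (𝓞 K)) (S : Finset (𝓞 K)), S ⊆ X → (∀ x ∈ S, Ideal.span {x} = I) →
      S.card ≤ U)
    (CY : ℝ) (hCY : 0 ≤ CY)
    (hYg : ∀ g : Ideal (𝓞 K), g ≠ ⊥ → ∑ x ∈ Y, q x * ind (x ∈ g) ≤ CY / nm g) :
    ∑ J ∈ (IQ K Q).filter (fun J => D₁ < Ideal.absNorm J),
      exk k Y q (fun y => ind (∏ i, y i ∈ J)) * Phk n X p g J ≤
      (CY ^ k * (((2 ^ Nat.log w Q : ℕ) : ℝ)) ^ k) *
        (CL * (cX ^ n * ((U : ℝ) * ((2 ^ Nat.log w N : ℕ) : ℝ)) ^ n) *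
          (B ^ Module.finrank ℚ K / D₁ + 2 * Q)) := by
  classical
  set tQ : ℝ := ((2 ^ Nat.log w Q : ℕ) : ℝ) with htQ
  set tN : ℝ := ((2 ^ Nat.log w N : ℕ) : ℝ) with htN
  have htQ0 : 0 ≤ tQ := by rw [htQ]; positivity
  have htN0 : 0 ≤ tN := by rw [htN]; positivity
  set mx : ℝ := cX ^ n * ((U : ℝ) * tN) ^ n with hmx
  have hmx0 : 0 ≤ mx := by rw [hmx]; positivity
  have hmax : ∀ x₀ ∈ Fintype.piFinset (fun _ : Fin n => X),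
      ∑ x ∈ (Fintype.piFinset (fun _ : Fin n => X)).filter
        (fun x => ∏ i, x i = ∏ i, x₀ i), Wk n p x ≤ mx := by
    intro x₀ hx₀
    obtain ⟨h1, h2⟩ := cop_prod hX x₀ hx₀
    refine (max_boundK n hp cX hcX hpc U hU _ h1).trans ?_
    have h3 : Ideal.span {∏ i, x₀ i} ≠ ⊥ := by rwa [Ne, Ideal.span_singleton_eq_bot]
    have h4 := (tau_roughK hRT w 0 M hw hwM (by omega) (Ideal.span {∏ i, x₀ i}) h3 h2 N
      (hXN x₀ hx₀)).1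
    have h5 := nd_nonneg (Ideal.span {∏ i, x₀ i})
    rw [hmx]
    gcongr
  have hPs : ∀ Q' : ℕ, 1 ≤ Q' → ∑ m ∈ Icc 1 Q', nsum (Phk n X p g) m ≤
      CL * mx * (B ^ Module.finrank ℚ K + (Q' : ℝ) ^ 2) := by
    intro Q' hQ'
    rw [nsum_sum]
    exact Phk_sum CL hCL hL n hp hg B hB hXB mx hmx0 hmax Q' hQ'
  have habel := Pool.Agent.T9h42.QD.abel_bound (fun m => nsum (Phk n X p g) m)
    (fun m => nsum_nonneg (Phk_nonneg n X p g) m) (CL * mx) (B ^ Module.finrank ℚ K)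
    (by positivity) (by positivity) hPs D₁ hD₁ Q
  rw [nsum_Ioc] at habel
  have hterm : ∀ J ∈ (IQ K Q).filter (fun J => D₁ < Ideal.absNorm J),
      exk k Y q (fun y => ind (∏ i, y i ∈ J)) * Phk n X p g J ≤
      (CY ^ k * tQ ^ k) * (Phk n X p g J / nm J) := by
    intro J hJ
    rw [Finset.mem_filter, mem_IQ] at hJ
    have hPh0 := Phk_nonneg n X p g J
    have hnm : 1 ≤ nm J := nm_pos hJ.1.2
    by_cases hc : IsCoprime J M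
    swap
    · rw [prob_zero hY J hc, zero_mul]
      positivity
    have h1 := hDP Y q J CY k hJ.1.2 hCY hq0
      (fun g hg => hYg g (ne_bot_of_dvd hJ.1.2 hg))
    have h3 := (tau_roughK hRT w 0 M hw hwM (by omega) J hJ.1.2 hc Q hJ.1.1).1
    have h5 := nd_nonneg J
    have h4 : exk k Y q (fun y => ind (∏ i, y i ∈ J)) ≤ CY ^ k * tQ ^ k / nm J := by
      refine h1.trans ?_
      rw [mul_comm ((nd J) ^ k)]
      gcongr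
    calc _ ≤ CY ^ k * tQ ^ k / nm J * Phk n X p g J :=
          mul_le_mul_of_nonneg_right h4 hPh0
      _ = _ := by ring
  calc _ ≤ ∑ J ∈ (IQ K Q).filter (fun J => D₁ < Ideal.absNorm J),
        (CY ^ k * tQ ^ k) * (Phk n X p g J / nm J) := Finset.sum_le_sum hterm
    _ = (CY ^ k * tQ ^ k) * ∑ J ∈ (IQ K Q).filter (fun J => D₁ < Ideal.absNorm J),
        (Phk n X p g J / nm J) := by rw [Finset.mul_sum]
    _ ≤ _ := mul_le_mul_of_nonneg_left habel (by positivity)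

theorem log_pow (w m Q : ℕ) (hw : 2 ^ m ≤ w) (hQ : 1 ≤ Q) :
    (((2 ^ Nat.log w Q : ℕ) : ℝ)) ^ m ≤ Q := by
  have : (2 ^ Nat.log w Q) ^ m ≤ Q := by
    rw [← pow_mul, mul_comm, pow_mul]
    exact (Nat.pow_le_pow_left hw _).trans (Nat.pow_log_le_self w (by omega))
  exact_mod_cast this

/-- the numbers. -/
theorem large_numbers (d k n e₀ m : ℕ) (hd : 1 ≤ d) (hk : e₀ * k < n)
    (hm : m = d * (e₀ * k * k + n * n)) (w : ℕ) (hw : 2 ^ (8 * m) ≤ w)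
    (c₁ c₂ D CX CY CL Uc ε : ℝ) (hc₁ : 1 ≤ c₁) (hc₂ : 1 ≤ c₂) (hCX : 0 ≤ CX) (hCY : 0 ≤ CY)
    (hCL : 0 ≤ CL) (hUc : 0 ≤ Uc) (hε : 0 < ε) (Q N D₁ : ℕ) (hQ1 : 1 ≤ Q) (hN1 : 1 ≤ N)
    (hQ : (Q : ℝ) ≤ 2 * ((c₂ * D ^ e₀) ^ k) ^ d) (hN : (N : ℝ) ≤ 2 * ((c₁ * D) ^ n) ^ d)
    (hD32 : D ≤ 32 * (D₁ : ℝ) ^ 4) (hD₁1 : 1 ≤ D₁) (hD₁D : (D₁ : ℝ) ≤ D)
    (hbig : 16 * (2 * ((2 * (c₂ ^ k) ^ d) ^ k * (2 * (c₁ ^ n) ^ d) ^ n)) *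
      (CY ^ k * CL * (CX * Uc) ^ n * ((c₁ ^ n) ^ d + 4 * (c₂ ^ k) ^ d)) ^ 8 / ε ^ 8 ≤ D₁) :
    (CY ^ k * (((2 ^ Nat.log w Q : ℕ) : ℝ)) ^ k) *
        (CL * ((CX / D ^ d) ^ n * (Uc * ((2 ^ Nat.log w N : ℕ) : ℝ)) ^ n) *
          (((c₁ * D) ^ n) ^ d / D₁ + 2 * Q)) ≤ ε := by
  have hD₁r : (1 : ℝ) ≤ D₁ := by exact_mod_cast hD₁1
  have hD1 : 1 ≤ D := hD₁r.trans hD₁D
  have hD0 : 0 < D := by linarith
  have hm1 : 1 ≤ m := by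
    rw [hm]
    have h1 : 1 ≤ n * n := Nat.mul_pos (by omega) (by omega)
    exact Nat.mul_pos hd (by omega)
  have htQ8 := log_pow w (8 * m) Q hw hQ1
  have htN8 := log_pow w (8 * m) N hw hN1
  set tQ : ℝ := ((2 ^ Nat.log w Q : ℕ) : ℝ) with htQ
  set tN : ℝ := ((2 ^ Nat.log w N : ℕ) : ℝ) with htN
  have htQ0 : 0 ≤ tQ := by rw [htQ]; positivity
  have htN0 : 0 ≤ tN := by rw [htN]; positivity
  set C₃ : ℝ := (2 * (c₂ ^ k) ^ d) ^ k * (2 * (c₁ ^ n) ^ d) ^ n with hC₃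
  set C₄ : ℝ := CY ^ k * CL * (CX * Uc) ^ n * ((c₁ ^ n) ^ d + 4 * (c₂ ^ k) ^ d) with hC₄
  have hC₃1 : 1 ≤ C₃ := by
    rw [hC₃]
    have h1 : 1 ≤ (c₂ ^ k) ^ d := one_le_pow₀ (one_le_pow₀ hc₂)
    have h2 : 1 ≤ (c₁ ^ n) ^ d := one_le_pow₀ (one_le_pow₀ hc₁)
    exact one_le_mul_of_one_le_of_one_le (one_le_pow₀ (by linarith)) (one_le_pow₀ (by linarith))
  have hC₃0 : 0 ≤ C₃ := by linarith
  have hC₄0 : 0 ≤ C₄ := by rw [hC₄]; positivity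
  set U : ℝ := tQ ^ k * tN ^ n with hU
  have hU0 : 0 ≤ U := by rw [hU]; positivity
  have hU8 : U ^ 8 ≤ C₃ * D := by
    apply le_of_pow_le_pow_left₀ (n := m) (by omega) (by positivity)
    have h1 : (U ^ 8) ^ m = (tQ ^ (8 * m)) ^ k * (tN ^ (8 * m)) ^ n := by
      rw [hU]
      ring
    rw [h1]
    calc (tQ ^ (8 * m)) ^ k * (tN ^ (8 * m)) ^ n
        ≤ (2 * ((c₂ * D ^ e₀) ^ k) ^ d) ^ k * (2 * ((c₁ * D) ^ n) ^ d) ^ n := by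
          have a1 := htQ8.trans hQ
          have a2 := htN8.trans hN
          gcongr
      _ = C₃ * D ^ m := by
          rw [hC₃, hm]
          ring
      _ ≤ C₃ ^ m * D ^ m := by
          have : C₃ ≤ C₃ ^ m := by
            calc C₃ = C₃ ^ 1 := (pow_one _).symm
              _ ≤ C₃ ^ m := pow_le_pow_right₀ hC₃1 hm1
          gcongr
      _ = (C₃ * D) ^ m := (mul_pow C₃ D m).symm
  have hfin := Pool.Agent.T9h42.QD.large_num (2 * C₃) U C₄ D₁ ε (by positivity) hU0 hC₄0 hD₁r hε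
    (hU8.trans (by
      have h1 : C₃ * D ≤ C₃ * (32 * (D₁ : ℝ) ^ 4) := mul_le_mul_of_nonneg_left hD32 hC₃0
      linarith)) hbig
  have hDd : (D : ℝ) ^ d ≠ 0 := by positivity
  have h1 : (CX / D ^ d) ^ n * ((c₁ * D) ^ n) ^ d = CX ^ n * (c₁ ^ n) ^ d := by
    have e1 : ((c₁ * D) ^ n) ^ d = (c₁ ^ n) ^ d * (D ^ d) ^ n := by ring
    rw [e1, div_pow]
    field_simp
  have h2 : (CX / D ^ d) ^ n * (Q : ℝ) ≤ CX ^ n * (2 * (c₂ ^ k) ^ d) / D₁ := by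
    have h4 : D ^ (e₀ * k * d) * D₁ ≤ (D ^ d) ^ n := by
      have hDD : D ≤ D ^ d := by
        calc D = D ^ 1 := (pow_one D).symm
          _ ≤ D ^ d := pow_le_pow_right₀ hD1 hd
      calc D ^ (e₀ * k * d) * D₁ ≤ D ^ (e₀ * k * d) * D ^ d := by
            have := hD₁D.trans hDD
            gcongr
        _ = D ^ (d * (e₀ * k + 1)) := by ring
        _ ≤ D ^ (d * n) := pow_le_pow_right₀ hD1 (Nat.mul_le_mul_left _ (by omega))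
        _ = (D ^ d) ^ n := by rw [pow_mul]
    rw [le_div_iff₀ (by linarith), div_pow]
    calc CX ^ n / (D ^ d) ^ n * (Q : ℝ) * D₁
        ≤ CX ^ n / (D ^ d) ^ n * (2 * ((c₂ * D ^ e₀) ^ k) ^ d) * D₁ := by gcongr
      _ = CX ^ n * (2 * (c₂ ^ k) ^ d) * ((D ^ (e₀ * k * d) * D₁) / (D ^ d) ^ n) := by
          ring
      _ ≤ CX ^ n * (2 * (c₂ ^ k) ^ d) * 1 := by
          have : (D ^ (e₀ * k * d) * D₁) / (D ^ d) ^ n ≤ 1 := by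
            rw [div_le_one (by positivity)]
            exact h4
          gcongr
      _ = _ := mul_one _
  have h3 : (CX / D ^ d) ^ n * (((c₁ * D) ^ n) ^ d / D₁ + 2 * Q) ≤
      CX ^ n * ((c₁ ^ n) ^ d + 4 * (c₂ ^ k) ^ d) / D₁ := by
    calc (CX / D ^ d) ^ n * (((c₁ * D) ^ n) ^ d / D₁ + 2 * Q)
        = ((CX / D ^ d) ^ n * ((c₁ * D) ^ n) ^ d) / D₁ + 2 * ((CX / D ^ d) ^ n * (Q : ℝ)) := by ring
      _ ≤ (CX ^ n * (c₁ ^ n) ^ d) / D₁ + 2 * (CX ^ n * (2 * (c₂ ^ k) ^ d) / D₁) := by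
          rw [h1]
          linarith
      _ = _ := by ring
  calc (CY ^ k * tQ ^ k) * (CL * ((CX / D ^ d) ^ n * (Uc * tN) ^ n) *
          (((c₁ * D) ^ n) ^ d / D₁ + 2 * Q))
      = (CY ^ k * tQ ^ k * CL * (Uc * tN) ^ n) *
        ((CX / D ^ d) ^ n * (((c₁ * D) ^ n) ^ d / D₁ + 2 * Q)) := by ring
    _ ≤ (CY ^ k * tQ ^ k * CL * (Uc * tN) ^ n) *
        (CX ^ n * ((c₁ ^ n) ^ d + 4 * (c₂ ^ k) ^ d) / D₁) := by gcongr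
    _ = C₄ * U / D₁ := by rw [hC₄, hU]; ring
    _ ≤ ε := hfin

end Pool.Agent.T9h42.NF
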